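import Mathlib

/-!
# MP_e83f70_co: symmetric functions, modified Macdonald polynomials and the operators `Delta_f`

The ring of symmetric functions over `ℚ(q, t)` is the polynomial ring in the power sums; the variable
`X k` is the power sum `p_{k+1}`.
-/

set_option autoImplicit false

namespace DeltaSchur

open MvPolynomial

/-- The field `ℚ(q, t)`. -/
abbrev K : Type := FractionRing (MvPolynomial (Fin 2) ℚ)

/-- The element `q`. -/
noncomputable def q : K := algebraMap (MvPolynomial (Fin 2) ℚ) K (X 0)

/-- The element `t`. -/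
noncomputable def t : K := algebraMap (MvPolynomial (Fin 2) ℚ) K (X 1)

/-- `ℕ[q, t]`: the polynomials in `q` and `t` with nonnegative integer coefficients. -/
noncomputable def Nqt : Subsemiring K :=
  ((algebraMap (MvPolynomial (Fin 2) ℚ) K).comp
    (MvPolynomial.map (σ := Fin 2) (Nat.castRingHom ℚ))).rangeS

/-- The complete homogeneous polynomial `h_m(x, y)`; it is the Schur polynomial `s_m(x, y)`. -/
def hh {R : Type*} [CommRing R] (x y : R) (m : ℕ) : R :=
  ∑ r ∈ Finset.range (m + 1), x ^ (m - r) * y ^ r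

/-- The finite sums of Schur polynomials `s_{(a+b, b)}(q, t) = (q t) ^ b h_a(q, t)`. -/
noncomputable def Sqt : AddSubmonoid K :=
  AddSubmonoid.closure {x | ∃ a b : ℕ, x = (q * t) ^ b * hh q t a}

/-- The ring of symmetric functions: polynomials in the power sums, `X k` is `p_{k+1}`. -/
abbrev Lam : Type := MvPolynomial ℕ K

/-- The complete homogeneous symmetric functions (Newton's identity). -/
noncomputable def h : ℕ → Lam
  | 0 => 1
  | n + 1 => C ((n + 1 : K)⁻¹) * ∑ k : Fin (n + 1), X (k : ℕ) * h (n - k)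
termination_by n => n

/-- The elementary symmetric functions (Newton's identity). -/
noncomputable def e : ℕ → Lam
  | 0 => 1
  | n + 1 => C ((n + 1 : K)⁻¹) * ∑ k : Fin (n + 1), (-1) ^ (k : ℕ) * X (k : ℕ) * e (n - k)
termination_by n => n

/-- `h_z` for integers `z`, which is `0` for `z < 0`. -/
noncomputable def hz (z : ℤ) : Lam := if z < 0 then 0 else h z.toNat

/-- The Schur function (Jacobi-Trudi determinant). -/
noncomputable def schur (l : List ℕ) : Lam :=
  Matrix.det (Matrix.of fun i j : Fin l.length => hz ((l.get i : ℤ) - (i : ℕ) + (j : ℕ)))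

/-- Partitions: weakly decreasing lists of positive integers. -/
def IsPar (l : List ℕ) : Prop := l.Pairwise (fun a b => b ≤ a) ∧ ∀ x ∈ l, 0 < x

/-- Dominance order: `l ≥ m`. -/
def Dom (l m : List ℕ) : Prop := ∀ i, (m.take i).sum ≤ (l.take i).sum

/-- The conjugate partition. -/
def conj (l : List ℕ) : List ℕ := (List.range (l.headD 0)).map fun j => l.countP fun x => j < x

/-- Evaluation `f ↦ f[B_μ]` at the monomials `q ^ j t ^ i`, `i < ℓ(μ)`, `j < μ_i`. -/
noncomputable def evB (l : List ℕ) : Lam →ₐ[K] K :=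
  aeval fun k => ∑ i ∈ Finset.range l.length, ∑ j ∈ Finset.range (l.getD i 0),
    (q ^ j * t ^ i) ^ (k + 1)

/-- The plethysm `F ↦ F[X (1 - a)]`. -/
noncomputable def pleth (a : K) : Lam →ₐ[K] Lam :=
  aeval fun k => C (1 - a ^ (k + 1)) * X k

/-- `z_m = ∏ (k + 1) ^ {m_k} m_k!` for the monomial `∏ p_{k+1} ^ {m_k}`. -/
noncomputable def zc (m : ℕ →₀ ℕ) : K := ∏ k ∈ m.support, ((k + 1 : K) ^ (m k) * ((m k).factorial : K))

/-- The Hall inner product: the monomials in the power sums are orthogonal with norms `z_m`. -/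
noncomputable def hall (F G : Lam) : K := ∑ m ∈ F.support, coeff m F * coeff m G * zc m

/-- `H` is the modified Macdonald polynomial of the partition `l`. -/
def IsMac (l : List ℕ) (H : Lam) : Prop :=
  pleth q H ∈ Submodule.span K {F | ∃ m, IsPar m ∧ m.sum = l.sum ∧ Dom m l ∧ F = schur m} ∧
  pleth t H ∈ Submodule.span K
    {F | ∃ m, IsPar m ∧ m.sum = l.sum ∧ Dom m (conj l) ∧ F = schur m} ∧
  hall H (schur [l.sum]) = 1

/-- `D` is the operator `Delta_f` in degree `n`. -/
def IsDelta (n : ℕ) (f : Lam) (D : Lam →ₗ[K] Lam) : Prop :=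
  ∀ l H, IsPar l → l.sum = n → IsMac l H → D H = evB l f • H

end DeltaSchur
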