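import Pool.Agent.Lib.MP_e83f70_co.Pos

/-!
# MP_e83f70_co: evaluation of Schur functions at three variables, one of which is `1`
-/

set_option autoImplicit false

namespace DeltaSchur

open MvPolynomial

/-- Newton's identities. -/
def NR (P H : ℕ → K) : Prop :=
  H 0 = 1 ∧ ∀ m : ℕ, (m + 1 : K) * H (m + 1) = ∑ k ∈ Finset.range (m + 1), P k * H (m - k)

theorem NR.eval {P H : ℕ → K} (hN : NR P H) (φ : Lam →ₐ[K] K) (hφ : ∀ k, φ (X k) = P k) :
    ∀ m, φ (h m) = H m := by
  intro m
  induction m using Nat.strong_induction_on with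
  | _ m ih =>
    cases m with
    | zero => rw [h, map_one, hN.1]
    | succ m =>
      rw [h, map_mul, map_sum]
      have h1 : ∑ k : Fin (m + 1), φ (X (k : ℕ) * h (m - k)) =
          ∑ k ∈ Finset.range (m + 1), P k * H (m - k) := by
        rw [Finset.sum_range]
        refine Finset.sum_congr rfl fun k _ => ?_
        rw [map_mul, hφ, ih _ (by omega)]
      rw [h1, ← hN.2 m]
      have h2 : φ (C ((m + 1 : K)⁻¹)) = (m + 1 : K)⁻¹ := by
        rw [← algebraMap_eq, AlgHom.commutes]; rfl
      rw [h2]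
      have h3 : (m + 1 : K) ≠ 0 := by exact_mod_cast Nat.succ_ne_zero m
      field_simp

theorem NR.zero : NR (fun _ => 0) (fun m => if m = 0 then 1 else 0) := by
  refine ⟨by simp, fun m => by simp⟩

theorem NR.add {P H : ℕ → K} (hN : NR P H) (x : K) {H' : ℕ → K} (h0 : H' 0 = 1)
    (h1 : ∀ m, H' (m + 1) = x * H' m + H (m + 1)) : NR (fun k => P k + x ^ (k + 1)) H' := by
  refine ⟨h0, fun m => ?_⟩
  have hA : ∀ m, ∑ k ∈ Finset.range (m + 2), P k * H' (m + 1 - k) =
      x * ∑ k ∈ Finset.range (m + 1), P k * H' (m - k) + (m + 2 : K) * H (m + 2) := by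
    intro m
    have h2 := hN.2 (m + 1)
    have e1 : ((m + 1 : ℕ) : K) + 1 = m + 2 := by push_cast; ring
    rw [e1] at h2
    rw [h2, Finset.sum_range_succ, Finset.sum_range_succ _ (m + 1), Finset.mul_sum, ← add_assoc,
      ← Finset.sum_add_distrib]
    congr 1
    · refine Finset.sum_congr rfl fun k hk => ?_
      rw [Finset.mem_range] at hk
      have e2 : m + 1 - k = (m - k) + 1 := by omega
      rw [e2, h1]; ring
    · rw [Nat.sub_self, h0, hN.1]
  have hB : ∀ m, ∑ k ∈ Finset.range (m + 2), x ^ (k + 1) * H' (m + 1 - k) =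
      x * H' (m + 1) + x * ∑ k ∈ Finset.range (m + 1), x ^ (k + 1) * H' (m - k) := by
    intro m
    rw [Finset.sum_range_succ', Finset.mul_sum, add_comm]
    congr 1
    · simp
    · refine Finset.sum_congr rfl fun k hk => ?_
      have e2 : m + 1 - (k + 1) = m - k := by omega
      rw [e2]; ring
  induction m with
  | zero =>
    have h2 := hN.2 0
    simp at h2
    rw [hN.1] at h2
    simp [h0, h1, h2]
    ring
  | succ m ih =>
    have e : ∀ m, ∑ k ∈ Finset.range (m + 1), (P k + x ^ (k + 1)) * H' (m - k) =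
        ∑ k ∈ Finset.range (m + 1), P k * H' (m - k) +
          ∑ k ∈ Finset.range (m + 1), x ^ (k + 1) * H' (m - k) := by
      intro m
      rw [← Finset.sum_add_distrib]
      exact Finset.sum_congr rfl fun k _ => by ring
    rw [e] at ih ⊢
    rw [hA, hB, h1 (m + 1)]
    push_cast
    linear_combination x * ih

theorem NR.one (x : K) : NR (fun k => x ^ (k + 1)) (fun m => x ^ m) := by
  have h1 := NR.zero.add x (H' := fun m => x ^ m) (by simp) (fun m => by simp [pow_succ]; ring)
  simpa using h1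

theorem hh_succ (x y : K) (m : ℕ) : hh x y (m + 1) = x * hh x y m + y ^ (m + 1) := by
  unfold hh
  rw [Finset.sum_range_succ, Finset.mul_sum, Nat.sub_self, pow_zero, one_mul]
  congr 1
  refine Finset.sum_congr rfl fun r hr => ?_
  rw [Finset.mem_range] at hr
  have e : m + 1 - r = (m - r) + 1 := by omega
  rw [e, pow_succ]
  ring

theorem NR.two (x y : K) : NR (fun k => y ^ (k + 1) + x ^ (k + 1)) (hh x y) :=
  (NR.one y).add x (by simp [hh]) (hh_succ x y)

/-- `h_m(1, x, y)`. -/
noncomputable def h3 (x y : K) (m : ℕ) : K := ∑ u ∈ Finset.range (m + 1), hh x y u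

theorem NR.three (x y : K) : NR (fun k => y ^ (k + 1) + x ^ (k + 1) + 1 ^ (k + 1)) (h3 x y) :=
  (NR.two x y).add 1 (by simp [h3, hh]) (fun m => by
    unfold h3
    rw [Finset.sum_range_succ _ (m + 1)]; ring)

/-- `h_z(1, x, y)`. -/
noncomputable def g3 (x y : K) (z : ℤ) : K := if z < 0 then 0 else h3 x y z.toNat

theorem eval_hz {x y : K} (φ : Lam →ₐ[K] K)
    (hφ : ∀ k, φ (X k) = y ^ (k + 1) + x ^ (k + 1) + 1 ^ (k + 1)) (z : ℤ) :
    φ (hz z) = g3 x y z := by
  unfold hz g3
  split_ifs with hz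
  · exact map_zero φ
  · exact (NR.three x y).eval φ hφ _

/-- The closed form. -/
noncomputable def G (x y : K) (n : ℕ) : K :=
  x ^ n / ((x - 1) * (x - y)) - y ^ n / ((y - 1) * (x - y)) + 1 / ((x - 1) * (y - 1))

section

variable {x y : K} (hx : x - 1 ≠ 0) (hy : y - 1 ≠ 0) (hxy : x - y ≠ 0)

include hxy in
theorem hh_closed (m : ℕ) : (x - y) * hh x y m = x ^ (m + 1) - y ^ (m + 1) := by
  induction m with
  | zero => simp [hh]
  | succ m ih =>
    rw [hh_succ]
    linear_combination x * ih

include hx hy hxy in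
theorem h3_closed (m : ℕ) : h3 x y m = G x y (m + 2) := by
  induction m with
  | zero =>
    simp only [h3, G, hh]
    simp
    field_simp
    ring
  | succ m ih =>
    have h1 : h3 x y (m + 1) = h3 x y m + hh x y (m + 1) := by
      unfold h3
      rw [Finset.sum_range_succ _ (m + 1)]
    have h2 : hh x y (m + 1) = (x ^ (m + 2) - y ^ (m + 2)) / (x - y) := by
      rw [eq_div_iff hxy, mul_comm, hh_closed hxy]
    rw [h1, ih, h2]
    unfold G
    field_simp
    ring

include hx hy hxy in
theorem g3_closed {z : ℤ} (hz : -2 ≤ z) : g3 x y z = G x y (z + 2).toNat := by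
  unfold g3
  split_ifs with h0
  · have : z = -2 ∨ z = -1 := by omega
    rcases this with rfl | rfl
    · simp [G]
      field_simp
      ring
    · simp [G]
      field_simp
      ring
  · rw [h3_closed hx hy hxy]
    congr 1
    omega

include hx hy hxy in
theorem G_rec (n : ℕ) :
    G x y (n + 3) - (1 + x + y) * G x y (n + 2) + (x + y + x * y) * G x y (n + 1) -
      x * y * G x y n = 0 := by
  unfold G
  field_simp
  ring

/-- The determinant. -/
noncomputable def sv (x y : K) (l : List ℕ) : K :=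
  Matrix.det (Matrix.of fun i j : Fin l.length => g3 x y ((l.get i : ℤ) - (i : ℕ) + (j : ℕ)))

theorem eval_schur (φ : Lam →ₐ[K] K)
    (hφ : ∀ k, φ (X k) = y ^ (k + 1) + x ^ (k + 1) + 1 ^ (k + 1)) (l : List ℕ) :
    φ (schur l) = sv x y l := by
  unfold schur sv
  rw [AlgHom.map_det]
  congr 1
  ext i j
  rw [AlgHom.mapMatrix_apply, Matrix.map_apply, Matrix.of_apply, Matrix.of_apply]
  exact eval_hz φ hφ _

include hx hy hxy in
theorem sv_long {l : List ℕ} (hl : ∀ a ∈ l, 0 < a) (h4 : 4 ≤ l.length) : sv x y l = 0 := by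
  unfold sv
  set M := Matrix.of fun i j : Fin l.length => g3 x y ((l.get i : ℤ) - (i : ℕ) + (j : ℕ)) with hM
  rw [← Matrix.exists_mulVec_eq_zero_iff]
  set a1 : Fin l.length := ⟨l.length - 1, by omega⟩ with ha1
  set a2 : Fin l.length := ⟨l.length - 2, by omega⟩ with ha2
  set a3 : Fin l.length := ⟨l.length - 3, by omega⟩ with ha3
  set a4 : Fin l.length := ⟨l.length - 4, by omega⟩ with ha4
  refine ⟨Pi.single a1 1 + Pi.single a2 (-(1 + x + y)) + Pi.single a3 (x + y + x * y) +
    Pi.single a4 (-(x * y)), ?_, ?_⟩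
  · intro hc
    have h1 := congrFun hc a1
    have n2 : a1 ≠ a2 := by rw [ha1, ha2]; simp only [ne_eq, Fin.mk.injEq]; omega
    have n3 : a1 ≠ a3 := by rw [ha1, ha3]; simp only [ne_eq, Fin.mk.injEq]; omega
    have n4 : a1 ≠ a4 := by rw [ha1, ha4]; simp only [ne_eq, Fin.mk.injEq]; omega
    simp [Pi.single_eq_of_ne n2, Pi.single_eq_of_ne n3, Pi.single_eq_of_ne n4] at h1
  · ext i
    rw [Matrix.mulVec_add, Matrix.mulVec_add, Matrix.mulVec_add]
    simp only [Pi.add_apply, Matrix.mulVec_single, Pi.zero_apply]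
    have hi : 0 < l.get i := hl _ (List.get_mem _ _)
    have hi2 := i.2
    have key : ∀ j : Fin l.length, l.length - 4 ≤ (j : ℕ) →
        M i j = G x y (l.get i + (j : ℕ) + 2 - (i : ℕ)) := by
      intro j hj
      rw [hM, Matrix.of_apply, g3_closed hx hy hxy (by omega)]
      congr 1
      omega
    simp only [op_smul_eq_mul, Pi.smul_apply, Matrix.col_apply]
    rw [key a1 (by rw [ha1]; simp only; omega), key a2 (by rw [ha2]; simp only; omega),
      key a3 (by rw [ha3]; simp only; omega), key a4 (by rw [ha4])]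
    have r := G_rec hx hy hxy (l.get i + (l.length - 4) + 2 - (i : ℕ))
    have e1 : l.get i + (a1 : ℕ) + 2 - (i : ℕ) = l.get i + (l.length - 4) + 2 - (i : ℕ) + 3 := by
      rw [ha1]; simp only; omega
    have e2 : l.get i + (a2 : ℕ) + 2 - (i : ℕ) = l.get i + (l.length - 4) + 2 - (i : ℕ) + 2 := by
      rw [ha2]; simp only; omega
    have e3 : l.get i + (a3 : ℕ) + 2 - (i : ℕ) = l.get i + (l.length - 4) + 2 - (i : ℕ) + 1 := by
      rw [ha3]; simp only; omega
    have e4 : l.get i + (a4 : ℕ) + 2 - (i : ℕ) = l.get i + (l.length - 4) + 2 - (i : ℕ) := by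
      rw [ha4]
    rw [e1, e2, e3, e4]
    linear_combination r

end

end DeltaSchur
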