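import Pool.Agent.Lib.MP_e83f70_co.Defs
import Pool.Agent.Lib.MP_e83f70_co.Eval

section

/-!
# MP_e83f70_co: degrees, the Hall inner product and plethysm
-/

set_option autoImplicit false

namespace DeltaSchur

open MvPolynomial

/-- The degree of `p_{k+1}`. -/
def wt (k : ℕ) : ℕ := k + 1

theorem h_homog : ∀ m, IsWeightedHomogeneous wt (h m) m := by
  intro m
  induction m using Nat.strong_induction_on with
  | _ m ih =>
    cases m with
    | zero => rw [h]; exact isWeightedHomogeneous_one _ _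
    | succ m =>
      rw [h]
      refine IsWeightedHomogeneous.C_mul ?_ _
      refine IsWeightedHomogeneous.sum _ _ _ fun k _ => ?_
      have h1 := (isWeightedHomogeneous_X K wt (k : ℕ)).mul (ih (m - k) (by omega))
      have e : wt (k : ℕ) + (m - k) = m + 1 := by unfold wt; omega
      rwa [e] at h1

theorem hz_homog {z : ℤ} (hz0 : 0 ≤ z) : IsWeightedHomogeneous wt (hz z) z.toNat := by
  unfold hz
  rw [if_neg (by omega)]
  exact h_homog _

theorem schur_homog (l : List ℕ) : IsWeightedHomogeneous wt (schur l) l.sum := by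
  unfold schur
  rw [Matrix.det_apply]
  refine IsWeightedHomogeneous.sum _ _ _ fun σ _ => ?_
  have key : IsWeightedHomogeneous wt
      (∏ i : Fin l.length, Matrix.of
        (fun i j : Fin l.length => hz ((l.get i : ℤ) - (i : ℕ) + (j : ℕ))) (σ i) i) l.sum := by
    simp only [Matrix.of_apply]
    by_cases hc : ∃ i : Fin l.length, ((l.get (σ i) : ℤ) - (σ i : ℕ) + (i : ℕ)) < 0
    · obtain ⟨i, hi⟩ := hc
      have : ∏ i : Fin l.length, hz ((l.get (σ i) : ℤ) - (σ i : ℕ) + (i : ℕ)) = 0 := by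
        refine Finset.prod_eq_zero (Finset.mem_univ i) ?_
        unfold hz
        rw [if_pos hi]
      rw [this]
      exact isWeightedHomogeneous_zero _ _ _
    · push Not at hc
      have h1 := IsWeightedHomogeneous.prod Finset.univ
        (fun i : Fin l.length => hz ((l.get (σ i) : ℤ) - (σ i : ℕ) + (i : ℕ)))
        (fun i => ((l.get (σ i) : ℤ) - (σ i : ℕ) + (i : ℕ)).toNat)
        (fun i _ => hz_homog (hc i))
      have e : ∑ i : Fin l.length, ((l.get (σ i) : ℤ) - (σ i : ℕ) + (i : ℕ)).toNat = l.sum := by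
        have e1 : ((∑ i : Fin l.length, ((l.get (σ i) : ℤ) - (σ i : ℕ) + (i : ℕ)).toNat : ℕ) : ℤ) =
            (l.sum : ℤ) := by
          have e3 : l.sum = ∑ i : Fin l.length, l.get i := by
            conv_lhs => rw [← List.ofFn_get l]
            rw [List.sum_ofFn]
          rw [e3, Nat.cast_sum, Nat.cast_sum]
          have e2 : ∑ i : Fin l.length, ((((l.get (σ i) : ℤ) - (σ i : ℕ) + (i : ℕ)).toNat : ℕ) : ℤ) =
              ∑ i : Fin l.length, ((l.get (σ i) : ℤ) - (σ i : ℕ) + (i : ℕ)) :=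
            Finset.sum_congr rfl fun i _ => Int.toNat_of_nonneg (hc i)
          rw [e2, Finset.sum_add_distrib, Finset.sum_sub_distrib,
            Equiv.sum_comp σ (fun i : Fin l.length => (l.get i : ℤ)),
            Equiv.sum_comp σ (fun i : Fin l.length => ((i : ℕ) : ℤ)), sub_add_cancel]
        exact_mod_cast e1
      rw [e] at h1
      exact h1
  rcases Int.units_eq_one_or (Equiv.Perm.sign σ) with hs | hs
  · rw [hs, one_smul]; exact key
  · rw [hs]
    have : (-1 : ℤˣ) • (∏ i : Fin l.length, Matrix.of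
        (fun i j : Fin l.length => hz ((l.get i : ℤ) - (i : ℕ) + (j : ℕ))) (σ i) i) =
        -(∏ i : Fin l.length, Matrix.of
        (fun i j : Fin l.length => hz ((l.get i : ℤ) - (i : ℕ) + (j : ℕ))) (σ i) i) := by
      rw [Units.neg_smul, one_smul]
    rw [this]
    exact key.neg

/-- The Hall inner product of elements of different degrees is `0`. -/
theorem hall_eq_zero {F G : Lam} {m n : ℕ} (hF : IsWeightedHomogeneous wt F m)
    (hG : IsWeightedHomogeneous wt G n) (hmn : m ≠ n) : hall F G = 0 := by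
  unfold hall
  refine Finset.sum_eq_zero fun d _ => ?_
  by_cases h1 : coeff d F = 0
  · rw [h1]; ring
  · by_cases h2 : coeff d G = 0
    · rw [h2]; ring
    · exact (hmn ((hF h1).symm.trans (hG h2))).elim

theorem hall_eq (F G : Lam) (S : Finset (ℕ →₀ ℕ)) (hS : F.support ⊆ S) :
    hall F G = ∑ m ∈ S, coeff m F * coeff m G * zc m := by
  unfold hall
  refine Finset.sum_subset hS fun m _ hm => ?_
  rw [notMem_support_iff] at hm
  rw [hm]; ring

/-- The inverse plethysm. -/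
noncomputable def pinv (a : K) : Lam →ₐ[K] Lam :=
  aeval fun k => C ((1 - a ^ (k + 1))⁻¹) * X k

theorem pinv_pleth {a : K} (ha : ∀ k : ℕ, 1 - a ^ (k + 1) ≠ 0) (F : Lam) :
    pinv a (pleth a F) = F := by
  have h1 : (pinv a).comp (pleth a) = AlgHom.id K Lam := by
    refine MvPolynomial.algHom_ext fun k => ?_
    rw [AlgHom.comp_apply]
    unfold pleth
    rw [aeval_X, map_mul]
    have h2 : pinv a (C (1 - a ^ (k + 1))) = C (1 - a ^ (k + 1)) := by
      rw [← algebraMap_eq, AlgHom.commutes]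
    rw [h2]
    unfold pinv
    rw [aeval_X, ← mul_assoc, ← C_mul, mul_inv_cancel₀ (ha k), C_1, one_mul]
    rfl
  have h2 := congrArg (fun φ : Lam →ₐ[K] Lam => φ F) h1
  exact h2

theorem pleth_inj {a : K} (ha : ∀ k : ℕ, 1 - a ^ (k + 1) ≠ 0) {F G : Lam}
    (h : pleth a F = pleth a G) : F = G := by
  rw [← pinv_pleth ha F, h, pinv_pleth ha]

end DeltaSchur
end

section

/-!
# MP_e83f70_co: branching of Schur functions at `1, x, y`
-/

set_option autoImplicit false

namespace DeltaSchur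

variable {x y : K} (hx : x - 1 ≠ 0) (hy : y - 1 ≠ 0) (hxy : x - y ≠ 0)

/-- The determinant in terms of `G`. -/
noncomputable def dG (x y : K) (α β γ : ℕ) : K :=
  G x y α * (G x y (β + 1) * G x y (γ + 2) - G x y (β + 2) * G x y (γ + 1)) -
    G x y (α + 1) * (G x y β * G x y (γ + 2) - G x y (β + 2) * G x y γ) +
    G x y (α + 2) * (G x y β * G x y (γ + 1) - G x y (β + 1) * G x y γ)

/-- The bialternant. -/
noncomputable def bi (x y : K) (α β γ : ℕ) : K :=
  (x ^ α * y ^ β - x ^ β * y ^ α - (x ^ α * y ^ γ - x ^ γ * y ^ α) +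
    (x ^ β * y ^ γ - x ^ γ * y ^ β)) / ((x - 1) * (y - 1) * (x - y))

include hx hy hxy in
theorem dG_eq (α β γ : ℕ) : dG x y α β γ = bi x y α β γ := by
  unfold dG bi G
  simp only [pow_add, pow_one]
  generalize x ^ α = a
  generalize x ^ β = b
  generalize x ^ γ = c
  generalize y ^ α = a'
  generalize y ^ β = b'
  generalize y ^ γ = c'
  field_simp
  ring

include hx hy hxy in
theorem G_zero : G x y 0 = 0 := by
  unfold G; simp; field_simp; ring

include hx hy hxy in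
theorem G_one : G x y 1 = 0 := by
  unfold G; simp; field_simp; ring

include hx hy hxy in
theorem G_two : G x y 2 = 1 := by
  unfold G; field_simp; ring

/-- The sum over the branching. -/
noncomputable def br (x y : K) (a b c : ℕ) : K :=
  ∑ u ∈ Finset.Ico b (a + 1), ∑ v ∈ Finset.Ico c (b + 1), (x * y) ^ v * hh x y (u - v)

include hx hy hxy in
theorem br_eq {a b c : ℕ} (hab : b ≤ a) (hbc : c ≤ b) :
    br x y a b c = bi x y (a + 2) (b + 1) c := by
  have h1 : ∀ u v : ℕ, v ≤ u → (x * y) ^ v * hh x y (u - v) =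
      (x * (x ^ u * y ^ v) - y * (y ^ u * x ^ v)) / (x - y) := by
    intro u v huv
    rw [eq_div_iff hxy]
    have h2 := hh_closed hxy (u - v)
    have e1 : x ^ u = x ^ v * x ^ (u - v) := by rw [← pow_add]; congr 1; omega
    have e2 : y ^ u = y ^ v * y ^ (u - v) := by rw [← pow_add]; congr 1; omega
    rw [e1, e2, mul_pow]
    rw [pow_succ, pow_succ] at h2
    linear_combination x ^ v * y ^ v * h2
  have h3 : br x y a b c = ∑ u ∈ Finset.Ico b (a + 1), ∑ v ∈ Finset.Ico c (b + 1),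
      (x * (x ^ u * y ^ v) - y * (y ^ u * x ^ v)) / (x - y) := by
    unfold br
    refine Finset.sum_congr rfl fun u hu => Finset.sum_congr rfl fun v hv => ?_
    rw [Finset.mem_Ico] at hu hv
    exact h1 u v (by omega)
  have h4 : ∑ u ∈ Finset.Ico b (a + 1), ∑ v ∈ Finset.Ico c (b + 1),
      (x * (x ^ u * y ^ v) - y * (y ^ u * x ^ v)) / (x - y) =
      (x * ((∑ u ∈ Finset.Ico b (a + 1), x ^ u) * ∑ v ∈ Finset.Ico c (b + 1), y ^ v) -
        y * ((∑ u ∈ Finset.Ico b (a + 1), y ^ u) * ∑ v ∈ Finset.Ico c (b + 1), x ^ v)) /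
        (x - y) := by
    rw [Finset.sum_mul_sum, Finset.sum_mul_sum, Finset.mul_sum, Finset.mul_sum,
      ← Finset.sum_sub_distrib, Finset.sum_div]
    refine Finset.sum_congr rfl fun u _ => ?_
    rw [Finset.mul_sum, Finset.mul_sum, ← Finset.sum_sub_distrib, Finset.sum_div]
  have hx1 : x ≠ 1 := fun hc => hx (by rw [hc, sub_self])
  have hy1 : y ≠ 1 := fun hc => hy (by rw [hc, sub_self])
  rw [h3, h4, geom_sum_Ico hx1 (by omega), geom_sum_Ico hx1 (by omega), geom_sum_Ico hy1 (by omega),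
    geom_sum_Ico hy1 (by omega)]
  unfold bi
  simp only [pow_add, pow_one]
  generalize x ^ a = a1
  generalize x ^ b = b1
  generalize x ^ c = c1
  generalize y ^ a = a2
  generalize y ^ b = b2
  generalize y ^ c = c2
  field_simp
  ring

include hx hy hxy in
theorem sv_nil : sv x y [] = br x y 0 0 0 := by
  simp [sv, br, hh]

include hx hy hxy in
theorem sv_one (a : ℕ) : sv x y [a] = br x y a 0 0 := by
  rw [br_eq hx hy hxy (by omega) le_rfl, ← dG_eq hx hy hxy]
  have e : sv x y [a] = g3 x y a := by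
    unfold sv
    show Matrix.det (n := Fin 1) _ = _
    rw [Matrix.det_fin_one]
    simp
  rw [e, g3_closed hx hy hxy (by omega)]
  have e2 : ((a : ℤ) + 2).toNat = a + 2 := by omega
  rw [e2]
  simp only [dG, zero_add, G_zero hx hy hxy, G_one hx hy hxy, G_two hx hy hxy]
  ring

include hx hy hxy in
theorem sv_two {a b : ℕ} (hab : b ≤ a) (hb : 0 < b) : sv x y [a, b] = br x y a b 0 := by
  rw [br_eq hx hy hxy hab (by omega), ← dG_eq hx hy hxy]
  have e : sv x y [a, b] = g3 x y a * g3 x y b - g3 x y (a + 1) * g3 x y (b - 1) := by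
    unfold sv
    show Matrix.det (n := Fin 2) _ = _
    rw [Matrix.det_fin_two]
    simp
  rw [e, g3_closed hx hy hxy (by omega), g3_closed hx hy hxy (by omega),
    g3_closed hx hy hxy (by omega), g3_closed hx hy hxy (by omega)]
  have e1 : ((a : ℤ) + 2).toNat = a + 2 := by omega
  have e2 : ((b : ℤ) + 2).toNat = b + 1 + 1 := by omega
  have e3 : ((a : ℤ) + 1 + 2).toNat = a + 2 + 1 := by omega
  have e4 : ((b : ℤ) - 1 + 2).toNat = b + 1 := by omega
  rw [e1, e2, e3, e4]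
  simp only [dG, zero_add, G_zero hx hy hxy, G_one hx hy hxy, G_two hx hy hxy]
  ring

include hx hy hxy in
theorem sv_three {a b c : ℕ} (hab : b ≤ a) (hbc : c ≤ b) (hc : 0 < c) :
    sv x y [a, b, c] = br x y a b c := by
  rw [br_eq hx hy hxy hab hbc, ← dG_eq hx hy hxy]
  have e : sv x y [a, b, c] =
      g3 x y a * (g3 x y b * g3 x y c - g3 x y (b + 1) * g3 x y (c - 1)) -
      g3 x y (a + 1) * (g3 x y (b - 1) * g3 x y c - g3 x y (b + 1) * g3 x y (c - 2)) +
      g3 x y (a + 2) * (g3 x y (b - 1) * g3 x y (c - 1) - g3 x y b * g3 x y (c - 2)) := by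
    unfold sv
    show Matrix.det (n := Fin 3) _ = _
    rw [Matrix.det_fin_three]
    simp only [Matrix.of_apply]
    have f : ∀ z w : ℤ, z = w → g3 x y z = g3 x y w := fun z w h => by rw [h]
    simp
    rw [f ((b : ℤ) - 1 + 2) (b + 1) (by ring), f ((c : ℤ) - 2 + 1) (c - 1) (by ring)]
    ring
  rw [e, g3_closed hx hy hxy (z := (a : ℤ)) (by omega),
    g3_closed hx hy hxy (z := (b : ℤ)) (by omega), g3_closed hx hy hxy (z := (c : ℤ)) (by omega),
    g3_closed hx hy hxy (z := (b : ℤ) + 1) (by omega),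
    g3_closed hx hy hxy (z := (c : ℤ) - 1) (by omega),
    g3_closed hx hy hxy (z := (a : ℤ) + 1) (by omega),
    g3_closed hx hy hxy (z := (b : ℤ) - 1) (by omega),
    g3_closed hx hy hxy (z := (c : ℤ) - 2) (by omega),
    g3_closed hx hy hxy (z := (a : ℤ) + 2) (by omega)]
  have e1 : ((a : ℤ) + 2).toNat = a + 2 := by omega
  have e2 : ((b : ℤ) + 2).toNat = b + 1 + 1 := by omega
  have e3 : ((c : ℤ) + 2).toNat = c + 2 := by omega
  have e4 : ((b : ℤ) + 1 + 2).toNat = b + 1 + 2 := by omega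
  have e5 : ((c : ℤ) - 1 + 2).toNat = c + 1 := by omega
  have e6 : ((a : ℤ) + 1 + 2).toNat = a + 2 + 1 := by omega
  have e7 : ((b : ℤ) - 1 + 2).toNat = b + 1 := by omega
  have e8 : ((c : ℤ) - 2 + 2).toNat = c := by omega
  have e9 : ((a : ℤ) + 2 + 2).toNat = a + 2 + 2 := by omega
  rw [e1, e2, e3, e4, e5, e6, e7, e8, e9]
  rfl

/-- The value of a Schur function at `1, x, y`. -/
theorem sv_form (l : List ℕ) (hl : IsPar l) :
    (∃ a b c, b ≤ a ∧ c ≤ b ∧ ∀ x y : K, x - 1 ≠ 0 → y - 1 ≠ 0 → x - y ≠ 0 →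
      sv x y l = br x y a b c) ∨
    (∀ x y : K, x - 1 ≠ 0 → y - 1 ≠ 0 → x - y ≠ 0 → sv x y l = 0) := by
  obtain ⟨h1, h2⟩ := hl
  match l, h1, h2 with
  | [], _, _ => exact Or.inl ⟨0, 0, 0, le_rfl, le_rfl, fun x y hx hy hxy => sv_nil hx hy hxy⟩
  | [a], _, _ =>
    exact Or.inl ⟨a, 0, 0, by omega, le_rfl, fun x y hx hy hxy => sv_one hx hy hxy a⟩
  | [a, b], h1, h2 =>
    have hab : b ≤ a := by simpa using h1
    have hb : 0 < b := h2 b (by simp)
    exact Or.inl ⟨a, b, 0, hab, by omega, fun x y hx hy hxy => sv_two hx hy hxy hab hb⟩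
  | [a, b, c], h1, h2 =>
    simp only [List.pairwise_cons, List.mem_cons, List.not_mem_nil, or_false] at h1
    have hab : b ≤ a := h1.1 b (Or.inl rfl)
    have hbc : c ≤ b := h1.2.1 c rfl
    have hc : 0 < c := h2 c (by simp)
    exact Or.inl ⟨a, b, c, hab, hbc, fun x y hx hy hxy => sv_three hx hy hxy hab hbc hc⟩
  | a :: b :: c :: d :: l, h1, h2 =>
    exact Or.inr fun x y hx hy hxy => sv_long hx hy hxy h2 (by simp)

end DeltaSchur
end

section

/-!
# MP_e83f70_co: the case `n = 3`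
-/

set_option autoImplicit false

namespace DeltaSchur

open MvPolynomial

/-- `α p_1 ^ 3 + β p_1 p_2 + γ p_3`. -/
noncomputable def F3 (α β γ : K) : Lam := C α * X 0 ^ 3 + C β * (X 0 * X 1) + C γ * X 2

theorem F3_add (α β γ α' β' γ' : K) :
    F3 α β γ + F3 α' β' γ' = F3 (α + α') (β + β') (γ + γ') := by
  unfold F3; simp only [C_add]; ring

theorem F3_smul (c α β γ : K) : c • F3 α β γ = F3 (c * α) (c * β) (c * γ) := by
  unfold F3; rw [smul_eq_C_mul]; simp only [C_mul]; ring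

/-- The monomials. -/
noncomputable def m1 : ℕ →₀ ℕ := Finsupp.single 0 3
/-- The monomials. -/
noncomputable def m2 : ℕ →₀ ℕ := Finsupp.single 0 1 + Finsupp.single 1 1
/-- The monomials. -/
noncomputable def m3 : ℕ →₀ ℕ := Finsupp.single 2 1

theorem m12 : m1 ≠ m2 := fun hc => by
  have := DFunLike.congr_fun hc 1
  simp [m1, m2] at this

theorem m13 : m1 ≠ m3 := fun hc => by
  have := DFunLike.congr_fun hc 2
  simp [m1, m3] at this

theorem m23 : m2 ≠ m3 := fun hc => by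
  have := DFunLike.congr_fun hc 2
  simp [m2, m3] at this

theorem F3_mon (α β γ : K) :
    F3 α β γ = monomial m1 α + monomial m2 β + monomial m3 γ := by
  unfold F3 m1 m2 m3
  rw [← C_mul_X_pow_eq_monomial]
  congr 1
  · congr 1
    have h1 : (X 0 * X 1 : Lam) = monomial (Finsupp.single 0 1 + Finsupp.single 1 1) 1 := by
      rw [X, X, monomial_mul, one_mul]
    rw [h1, C_mul_monomial, mul_one]
  · have h1 : (X 2 : Lam) = monomial (Finsupp.single 2 1) 1 := rfl
    rw [h1, C_mul_monomial, mul_one]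

theorem coeff_F3_1 (α β γ : K) : coeff m1 (F3 α β γ) = α := by
  rw [F3_mon, coeff_add, coeff_add, coeff_monomial, coeff_monomial, coeff_monomial,
    if_pos rfl, if_neg m12.symm, if_neg m13.symm]
  ring

theorem coeff_F3_2 (α β γ : K) : coeff m2 (F3 α β γ) = β := by
  rw [F3_mon, coeff_add, coeff_add, coeff_monomial, coeff_monomial, coeff_monomial,
    if_neg m12, if_pos rfl, if_neg m23.symm]
  ring

theorem coeff_F3_3 (α β γ : K) : coeff m3 (F3 α β γ) = γ := by
  rw [F3_mon, coeff_add, coeff_add, coeff_monomial, coeff_monomial, coeff_monomial,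
    if_neg m13, if_neg m23, if_pos rfl]
  ring

theorem F3_inj {α β γ α' β' γ' : K} (h : F3 α β γ = F3 α' β' γ') : α = α' ∧ β = β' ∧ γ = γ' :=
  ⟨by rw [← coeff_F3_1 α β γ, h, coeff_F3_1], by rw [← coeff_F3_2 α β γ, h, coeff_F3_2],
    by rw [← coeff_F3_3 α β γ, h, coeff_F3_3]⟩

theorem supp_F3 (α β γ : K) : (F3 α β γ).support ⊆ {m1, m2, m3} := by
  classical
  intro d hd
  rw [mem_support_iff, F3_mon, coeff_add, coeff_add, coeff_monomial, coeff_monomial,
    coeff_monomial] at hd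
  simp only [Finset.mem_insert, Finset.mem_singleton]
  by_contra hc
  push Not at hc
  rw [if_neg hc.1.symm, if_neg hc.2.1.symm, if_neg hc.2.2.symm] at hd
  simp at hd

theorem zc_m1 : zc m1 = 6 := by
  unfold zc m1
  rw [Finsupp.support_single _ (by norm_num), Finset.prod_singleton]
  simp [Nat.factorial]

theorem zc_m2 : zc m2 = 2 := by
  have h1 : m2.support = {0, 1} := by
    ext k
    rw [Finsupp.mem_support_iff, m2, Finsupp.add_apply, Finsupp.single_apply, Finsupp.single_apply,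
      Finset.mem_insert, Finset.mem_singleton]
    split_ifs <;> simp <;> omega
  unfold zc
  rw [h1, Finset.prod_pair (by norm_num)]
  simp [m2]
  norm_num

theorem zc_m3 : zc m3 = 3 := by
  unfold zc m3
  rw [Finsupp.support_single _ (by norm_num), Finset.prod_singleton]
  simp
  norm_num

theorem hall_F3 (α β γ : K) (G : Lam) :
    hall (F3 α β γ) G = 6 * α * coeff m1 G + 2 * β * coeff m2 G + 3 * γ * coeff m3 G := by
  classical
  rw [hall_eq _ _ _ (supp_F3 α β γ), Finset.sum_insert, Finset.sum_insert, Finset.sum_singleton,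
    coeff_F3_1, coeff_F3_2, coeff_F3_3, zc_m1, zc_m2, zc_m3]
  · ring
  · simp [m23]
  · simp [m12, m13]

theorem h1_eq : h 1 = X 0 := by
  rw [h]; simp [h]

theorem h2_eq : h 2 = C (1 / 2) * X 0 ^ 2 + C (1 / 2) * X 1 := by
  rw [h, Fin.sum_univ_two]
  simp [h, h1_eq]
  have : (1 + 1 : K)⁻¹ = 2⁻¹ := by norm_num
  rw [this]
  ring

theorem h3_eq : h 3 = F3 (1 / 6) (1 / 2) (1 / 3) := by
  rw [h, Fin.sum_univ_three]
  have e1 : h (2 - ((0 : Fin 3) : ℕ)) = h 2 := rfl
  have e2 : h (2 - ((1 : Fin 3) : ℕ)) = h 1 := rfl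
  have e3 : h (2 - ((2 : Fin 3) : ℕ)) = h 0 := rfl
  have e4 : ((2 : ℕ) + 1 : K)⁻¹ = 1 / 3 := by norm_num
  have e5 : ((0 : Fin 3) : ℕ) = 0 := rfl
  have e6 : ((1 : Fin 3) : ℕ) = 1 := rfl
  have e7 : ((2 : Fin 3) : ℕ) = 2 := rfl
  have e8 : h 0 = 1 := by rw [h]
  rw [e1, e2, e3, e4, e5, e6, e7, h2_eq, h1_eq, e8]
  have f1 : (C (1 / 6) : Lam) = C (1 / 3) * C (1 / 2) := by rw [← C_mul]; norm_num
  have f2 : (C (1 / 2) : Lam) = C (1 / 3) * C (3 / 2) := by rw [← C_mul]; norm_num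
  have f3 : (C (3 / 2) : Lam) = C (1 / 2) + 1 := by rw [← C_1, ← C_add]; norm_num
  unfold F3
  linear_combination (X 0 ^ 3 * -1) * f1 - (X 0 * X 1) * f2 - C (1 / 3) * (X 0 * X 1) * f3

theorem e3_eq : e 3 = F3 (1 / 6) (-1 / 2) (1 / 3) := by
  have e8 : e 0 = 1 := by rw [e]
  have e9 : e 1 = X 0 := by rw [e]; simp [e8]
  have e10 : e 2 = C (1 / 2) * X 0 ^ 2 - C (1 / 2) * X 1 := by
    rw [e, Fin.sum_univ_two]
    simp [e8, e9]
    have : (1 + 1 : K)⁻¹ = 2⁻¹ := by norm_num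
    rw [this]
    ring
  rw [e, Fin.sum_univ_three]
  have e1 : e (2 - ((0 : Fin 3) : ℕ)) = e 2 := rfl
  have e2 : e (2 - ((1 : Fin 3) : ℕ)) = e 1 := rfl
  have e3 : e (2 - ((2 : Fin 3) : ℕ)) = e 0 := rfl
  have e4 : ((2 : ℕ) + 1 : K)⁻¹ = 1 / 3 := by norm_num
  have e5 : ((0 : Fin 3) : ℕ) = 0 := rfl
  have e6 : ((1 : Fin 3) : ℕ) = 1 := rfl
  have e7 : ((2 : Fin 3) : ℕ) = 2 := rfl
  rw [e1, e2, e3, e4, e5, e6, e7, e10, e9, e8]
  have f1 : (C (1 / 6) : Lam) = C (1 / 3) * C (1 / 2) := by rw [← C_mul]; norm_num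
  have f2 : (C (-1 / 2) : Lam) = -(C (1 / 3) * C (3 / 2)) := by rw [← C_mul, ← C_neg]; norm_num
  have f3 : (C (3 / 2) : Lam) = C (1 / 2) + 1 := by rw [← C_1, ← C_add]; norm_num
  unfold F3
  linear_combination (X 0 ^ 3 * -1) * f1 - (X 0 * X 1) * f2 + C (1 / 3) * (X 0 * X 1) * f3

theorem hz_nat (m : ℕ) : hz m = h m := by
  unfold hz
  rw [if_neg (by omega)]
  rfl

theorem hz_neg {z : ℤ} (hz0 : z < 0) : hz z = 0 := by
  unfold hz
  rw [if_pos hz0]

theorem schur_3 : schur [3] = F3 (1 / 6) (1 / 2) (1 / 3) := by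
  rw [← h3_eq]
  unfold schur
  show Matrix.det (n := Fin 1) _ = _
  rw [Matrix.det_fin_one]
  have := hz_nat 3
  simpa using this

theorem schur_21' : schur [2, 1] = h 2 * h 1 - h 3 * h 0 := by
  unfold schur
  show Matrix.det (n := Fin 2) _ = _
  rw [Matrix.det_fin_two]
  have a1 := hz_nat 2
  have a2 := hz_nat 1
  have a3 := hz_nat 3
  have a4 := hz_nat 0
  norm_num at a1 a2 a3 a4
  rw [← a1, ← a2, ← a3, ← a4]
  rfl

theorem schur_21 : schur [2, 1] = F3 (1 / 3) 0 (-1 / 3) := by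
  have e8 : h 0 = 1 := by rw [h]
  rw [schur_21', h2_eq, h1_eq, h3_eq, e8]
  unfold F3
  have f1 : (C (1 / 3) : Lam) = C (1 / 2) - C (1 / 6) := by rw [← C_sub]; norm_num
  have f3 : (C (-1 / 3) : Lam) = - C (1 / 3) := by rw [← C_neg]; norm_num
  have f4 : (C 0 : Lam) = 0 := C_0
  linear_combination (-X 0 ^ 3) * f1 - X 2 * f3 - (X 0 * X 1) * f4

theorem schur_111' : schur [1, 1, 1] = h 1 * (h 1 * h 1 - h 2 * h 0) - h 2 * (h 0 * h 1) +
    h 3 * (h 0 * h 0) := by
  unfold schur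
  show Matrix.det (n := Fin 3) _ = _
  rw [Matrix.det_fin_three]
  have a1 := hz_nat 2
  have a2 := hz_nat 1
  have a3 := hz_nat 3
  have a4 := hz_nat 0
  have a5 : hz (-1) = 0 := hz_neg (by norm_num)
  norm_num at a1 a2 a3 a4
  have key : hz 1 * hz 1 * hz 1 - hz 1 * hz 2 * hz 0 - hz 2 * hz 0 * hz 1 + hz 2 * hz 2 * hz (-1) +
      hz 3 * hz 0 * hz 0 - hz 3 * hz 1 * hz (-1) =
      h 1 * (h 1 * h 1 - h 2 * h 0) - h 2 * (h 0 * h 1) + h 3 * (h 0 * h 0) := by
    rw [a1, a2, a3, a4, a5]; ring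
  rw [← key]
  rfl

theorem schur_111 : schur [1, 1, 1] = F3 (1 / 6) (-1 / 2) (1 / 3) := by
  have e8 : h 0 = 1 := by rw [h]
  rw [schur_111', h2_eq, h1_eq, h3_eq, e8]
  unfold F3
  have f1 : (C (1 / 6) : Lam) + 1 - C (1 / 2) - C (1 / 2) = C (1 / 6) := by
    rw [← C_1, ← C_add, ← C_sub, ← C_sub]; norm_num
  have f2 : (C (-1 / 2) : Lam) = - C (1 / 2) := by rw [← C_neg]; norm_num
  linear_combination (X 0 ^ 3) * f1 - (X 0 * X 1) * f2

end DeltaSchur
end

section

/-!
# MP_e83f70_co: the modified Macdonald polynomials of degree `3`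
-/

set_option autoImplicit false

namespace DeltaSchur

open MvPolynomial

theorem par3 {m : List ℕ} (h1 : IsPar m) (h2 : m.sum = 3) :
    m = [3] ∨ m = [2, 1] ∨ m = [1, 1, 1] := by
  obtain ⟨h3, h4⟩ := h1
  match m, h2, h3, h4 with
  | [], h2, _, _ => simp at h2
  | [a], h2, _, _ => simp at h2; left; rw [h2]
  | [a, b], h2, h3, h4 =>
    simp at h2 h3
    have ha := h4 a (by simp)
    have hb := h4 b (by simp)
    right; left
    have : a = 2 ∧ b = 1 := by omega
    rw [this.1, this.2]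
  | [a, b, c], h2, h3, h4 =>
    simp at h2
    have ha := h4 a (by simp)
    have hb := h4 b (by simp)
    have hc := h4 c (by simp)
    right; right
    have : a = 1 ∧ b = 1 ∧ c = 1 := by omega
    rw [this.1, this.2.1, this.2.2]
  | a :: b :: c :: d :: l, h2, h3, h4 =>
    simp at h2
    have ha := h4 a (by simp)
    have hb := h4 b (by simp)
    have hc := h4 c (by simp)
    have hd := h4 d (by simp)
    omega

theorem ispar_3 : IsPar [3] := ⟨by simp, by simp⟩
theorem ispar_21 : IsPar [2, 1] := ⟨by simp, by simp⟩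
theorem ispar_111 : IsPar [1, 1, 1] := ⟨by simp, by simp⟩

theorem conj_3 : conj [3] = [1, 1, 1] := by decide
theorem conj_21 : conj [2, 1] = [2, 1] := by decide
theorem conj_111 : conj [1, 1, 1] = [3] := by decide

theorem dom_refl (l : List ℕ) : Dom l l := fun _ => le_rfl

theorem dom_3_21 : Dom [3] [2, 1] := by
  intro i
  match i with
  | 0 => simp
  | 1 => simp
  | n + 2 => simp

theorem dom_3_111 : Dom [3] [1, 1, 1] := by
  intro i
  match i with
  | 0 => simp
  | 1 => simp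
  | 2 => simp
  | n + 3 => simp

theorem dom_21_111 : Dom [2, 1] [1, 1, 1] := by
  intro i
  match i with
  | 0 => simp
  | 1 => simp
  | 2 => simp
  | n + 3 => simp

theorem ndom_21_3 : ¬ Dom [2, 1] [3] := fun hc => by have := hc 1; simp at this
theorem ndom_111_3 : ¬ Dom [1, 1, 1] [3] := fun hc => by have := hc 1; simp at this
theorem ndom_111_21 : ¬ Dom [1, 1, 1] [2, 1] := fun hc => by have := hc 1; simp at this

theorem set_3 : {F : Lam | ∃ m, IsPar m ∧ m.sum = 3 ∧ Dom m [3] ∧ F = schur m} = {schur [3]} := by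
  ext F
  simp only [Set.mem_ofPred_eq, Set.mem_singleton_iff]
  constructor
  · rintro ⟨m, h1, h2, h3, rfl⟩
    rcases par3 h1 h2 with rfl | rfl | rfl
    · rfl
    · exact (ndom_21_3 h3).elim
    · exact (ndom_111_3 h3).elim
  · rintro rfl
    exact ⟨[3], ispar_3, rfl, dom_refl _, rfl⟩

theorem set_21 : {F : Lam | ∃ m, IsPar m ∧ m.sum = 3 ∧ Dom m [2, 1] ∧ F = schur m} =
    {schur [3], schur [2, 1]} := by
  ext F
  simp only [Set.mem_ofPred_eq, Set.mem_singleton_iff, Set.mem_insert_iff]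
  constructor
  · rintro ⟨m, h1, h2, h3, rfl⟩
    rcases par3 h1 h2 with rfl | rfl | rfl
    · left; rfl
    · right; rfl
    · exact (ndom_111_21 h3).elim
  · rintro (rfl | rfl)
    · exact ⟨[3], ispar_3, rfl, dom_3_21, rfl⟩
    · exact ⟨[2, 1], ispar_21, rfl, dom_refl _, rfl⟩

theorem set_111 : {F : Lam | ∃ m, IsPar m ∧ m.sum = 3 ∧ Dom m [1, 1, 1] ∧ F = schur m} =
    {schur [3], schur [2, 1], schur [1, 1, 1]} := by
  ext F
  simp only [Set.mem_ofPred_eq, Set.mem_singleton_iff, Set.mem_insert_iff]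
  constructor
  · rintro ⟨m, h1, h2, h3, rfl⟩
    rcases par3 h1 h2 with rfl | rfl | rfl
    · left; rfl
    · right; left; rfl
    · right; right; rfl
  · rintro (rfl | rfl | rfl)
    · exact ⟨[3], ispar_3, rfl, dom_3_111, rfl⟩
    · exact ⟨[2, 1], ispar_21, rfl, dom_21_111, rfl⟩
    · exact ⟨[1, 1, 1], ispar_111, rfl, dom_refl _, rfl⟩

theorem span_3 (F : Lam) : F ∈ Submodule.span K {F : Lam | ∃ m, IsPar m ∧ m.sum = 3 ∧
    Dom m [3] ∧ F = schur m} ↔ ∃ c : K, F = F3 (c / 6) (c / 2) (c / 3) := by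
  rw [set_3, Submodule.mem_span_singleton]
  constructor
  · rintro ⟨c, rfl⟩
    refine ⟨c, ?_⟩
    rw [schur_3, F3_smul]
    congr 1 <;> ring
  · rintro ⟨c, rfl⟩
    refine ⟨c, ?_⟩
    rw [schur_3, F3_smul]
    congr 1 <;> ring

theorem span_21 (F : Lam) : F ∈ Submodule.span K {F : Lam | ∃ m, IsPar m ∧ m.sum = 3 ∧
    Dom m [2, 1] ∧ F = schur m} ↔ ∃ α β γ : K, F = F3 α β γ ∧ α - β + γ = 0 := by
  rw [set_21, Submodule.mem_span_pair]
  constructor
  · rintro ⟨a, b, rfl⟩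
    refine ⟨_, _, _, by rw [schur_3, schur_21, F3_smul, F3_smul, F3_add], by ring⟩
  · rintro ⟨α, β, γ, rfl, h⟩
    refine ⟨α + β + γ, 2 * α - γ, ?_⟩
    rw [schur_3, schur_21, F3_smul, F3_smul, F3_add]
    congr 1
    · linear_combination (-1 / 6) * h
    · linear_combination (1 / 2) * h
    · linear_combination (-1 / 3) * h

theorem span_111 (F : Lam) : F ∈ Submodule.span K {F : Lam | ∃ m, IsPar m ∧ m.sum = 3 ∧
    Dom m [1, 1, 1] ∧ F = schur m} ↔ ∃ α β γ : K, F = F3 α β γ := by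
  rw [set_111]
  constructor
  · intro h
    rw [Submodule.mem_span_insert] at h
    obtain ⟨a, G, hG, rfl⟩ := h
    rw [Submodule.mem_span_pair] at hG
    obtain ⟨b, c, rfl⟩ := hG
    exact ⟨_, _, _, by rw [schur_3, schur_21, schur_111, F3_smul, F3_smul, F3_smul, F3_add, F3_add]⟩
  · rintro ⟨α, β, γ, rfl⟩
    rw [Submodule.mem_span_insert]
    refine ⟨α + β + γ, (2 * α - γ) • schur [2, 1] + (α - β + γ) • schur [1, 1, 1], ?_, ?_⟩
    · rw [Submodule.mem_span_pair]
      exact ⟨_, _, rfl⟩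
    · rw [schur_3, schur_21, schur_111, F3_smul, F3_smul, F3_smul, F3_add, F3_add]
      congr 1 <;> ring

theorem pleth_C (a c : K) : pleth a (C c) = C c := by rw [← algebraMap_eq, AlgHom.commutes]

theorem pleth_X (a : K) (k : ℕ) : pleth a (X k) = C (1 - a ^ (k + 1)) * X k := by
  unfold pleth; rw [aeval_X]

theorem pleth_F3 (a α β γ : K) : pleth a (F3 α β γ) =
    F3 ((1 - a) ^ 3 * α) ((1 - a) * (1 - a ^ 2) * β) ((1 - a ^ 3) * γ) := by
  unfold F3
  rw [map_add, map_add, map_mul, map_mul, map_mul, map_mul, map_pow, pleth_C, pleth_C, pleth_C,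
    pleth_X, pleth_X, pleth_X, C_mul, C_mul, C_mul, C_mul, C_pow]
  have e1 : 1 - a ^ (0 + 1) = 1 - a := by ring
  rw [e1]
  ring

theorem hall_s3 (α β γ : K) : hall (F3 α β γ) (schur [3]) = α + β + γ := by
  rw [schur_3, hall_F3, coeff_F3_1, coeff_F3_2, coeff_F3_3]; ring

theorem hall_s21 (α β γ : K) : hall (F3 α β γ) (schur [2, 1]) = 2 * α - γ := by
  rw [schur_21, hall_F3, coeff_F3_1, coeff_F3_2, coeff_F3_3]; ring

theorem hall_s111 (α β γ : K) : hall (F3 α β γ) (schur [1, 1, 1]) = α - β + γ := by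
  rw [schur_111, hall_F3, coeff_F3_1, coeff_F3_2, coeff_F3_3]; ring

theorem q_pow (k : ℕ) : 1 - q ^ (k + 1) ≠ 0 := by
  have := ne_of_eval (1 - X 0 ^ (k + 1)) ![2, 3] (by
    simp
    have : (1 : ℚ) < 2 ^ (k + 1) := one_lt_pow₀ (by norm_num) (by omega)
    linarith)
  simpa [q] using this

theorem t_pow (k : ℕ) : 1 - t ^ (k + 1) ≠ 0 := by
  have := ne_of_eval (1 - X 1 ^ (k + 1)) ![2, 3] (by
    simp
    have : (1 : ℚ) < 3 ^ (k + 1) := one_lt_pow₀ (by norm_num) (by omega)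
    linarith)
  simpa [t] using this

theorem q_ne : q ≠ 0 := by
  have := ne_of_eval (X 0) ![2, 3] (by simp)
  simpa [q] using this

theorem t_ne : t ≠ 0 := by
  have := ne_of_eval (X 1) ![2, 3] (by simp)
  simpa [t] using this

/-- `s_3 + a s_21 + b s_111`. -/
noncomputable def S3 (a b : K) : Lam :=
  F3 ((1 + 2 * a + b) / 6) ((1 - b) / 2) ((1 - a + b) / 3)

/-- The modified Macdonald polynomial of `(3)`. -/
noncomputable def M3 : Lam := S3 (q + q ^ 2) (q ^ 3)
/-- The modified Macdonald polynomial of `(2, 1)`. -/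
noncomputable def M21 : Lam := S3 (q + t) (q * t)
/-- The modified Macdonald polynomial of `(1, 1, 1)`. -/
noncomputable def M111 : Lam := S3 (t + t ^ 2) (t ^ 3)

/-- Uniqueness for one row. -/
theorem row_unique {a α β γ c : K} (ha : ∀ k : ℕ, 1 - a ^ (k + 1) ≠ 0)
    (h1 : F3 ((1 - a) ^ 3 * α) ((1 - a) * (1 - a ^ 2) * β) ((1 - a ^ 3) * γ) =
      F3 (c / 6) (c / 2) (c / 3)) (h2 : α + β + γ = 1) :
    F3 α β γ = S3 (a + a ^ 2) (a ^ 3) := by
  obtain ⟨e1, e2, e3⟩ := F3_inj h1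
  have n1 : 1 - a ≠ 0 := by have := ha 0; rwa [zero_add, pow_one] at this
  have n2 : 1 - a ^ 2 ≠ 0 := ha 1
  have n3 : 1 - a ^ 3 ≠ 0 := ha 2
  have hc : c = (1 - a) ^ 3 * (1 + a) * (1 + a + a ^ 2) := by
    linear_combination ((1 - a) ^ 3 * (1 + a) * (1 + a + a ^ 2)) * h2 -
      (1 + a) * (1 + a + a ^ 2) * e1 - (1 - a) * (1 + a + a ^ 2) * e2 -
      (1 - a) ^ 2 * (1 + a) * e3
  have f1 : α = (1 + 2 * (a + a ^ 2) + a ^ 3) / 6 := by
    have : (1 - a) ^ 3 * (α - (1 + 2 * (a + a ^ 2) + a ^ 3) / 6) = 0 := by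
      linear_combination e1 + (1 / 6) * hc
    rcases mul_eq_zero.1 this with h | h
    · exact (pow_ne_zero 3 n1 h).elim
    · linear_combination h
  have f2 : β = (1 - a ^ 3) / 2 := by
    have : ((1 - a) * (1 - a ^ 2)) * (β - (1 - a ^ 3) / 2) = 0 := by
      linear_combination e2 + (1 / 2) * hc
    rcases mul_eq_zero.1 this with h | h
    · exact (mul_ne_zero n1 n2 h).elim
    · linear_combination h
  have f3 : γ = (1 - (a + a ^ 2) + a ^ 3) / 3 := by
    have : (1 - a ^ 3) * (γ - (1 - (a + a ^ 2) + a ^ 3) / 3) = 0 := by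
      linear_combination e3 + (1 / 3) * hc
    rcases mul_eq_zero.1 this with h | h
    · exact (n3 h).elim
    · linear_combination h
  rw [f1, f2, f3]
  rfl

theorem pleth_form {a : K} (ha : ∀ k : ℕ, 1 - a ^ (k + 1) ≠ 0) {H : Lam} {α β γ : K}
    (h : pleth a H = F3 α β γ) : H = F3 (α / (1 - a) ^ 3) (β / ((1 - a) * (1 - a ^ 2)))
      (γ / (1 - a ^ 3)) := by
  have n1 : 1 - a ≠ 0 := by have := ha 0; rwa [zero_add, pow_one] at this
  have n2 : 1 - a ^ 2 ≠ 0 := ha 1
  have n3 : 1 - a ^ 3 ≠ 0 := ha 2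
  refine pleth_inj ha ?_
  rw [h, pleth_F3]
  congr 1
  · rw [mul_div_cancel₀ _ (pow_ne_zero 3 n1)]
  · rw [mul_div_cancel₀ _ (mul_ne_zero n1 n2)]
  · rw [mul_div_cancel₀ _ n3]

theorem isMac_3 (H : Lam) : IsMac [3] H ↔ H = M3 := by
  unfold IsMac
  rw [conj_3]
  show (_ ∈ Submodule.span K {F : Lam | ∃ m, IsPar m ∧ m.sum = 3 ∧ Dom m [3] ∧ F = schur m} ∧
    _ ∈ Submodule.span K {F : Lam | ∃ m, IsPar m ∧ m.sum = 3 ∧ Dom m [1, 1, 1] ∧ F = schur m} ∧
    hall H (schur [3]) = 1) ↔ _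
  rw [span_3, span_111]
  constructor
  · rintro ⟨⟨c, hc⟩, -, h1⟩
    obtain ⟨α, β, γ, rfl⟩ : ∃ α β γ, H = F3 α β γ := ⟨_, _, _, pleth_form q_pow hc⟩
    rw [pleth_F3] at hc
    rw [hall_s3] at h1
    exact row_unique q_pow hc h1
  · rintro rfl
    unfold M3 S3
    refine ⟨⟨(1 - q) * (1 - q ^ 2) * (1 - q ^ 3), ?_⟩, ⟨_, _, _, pleth_F3 _ _ _ _⟩, ?_⟩
    · rw [pleth_F3]
      congr 1 <;> ring
    · rw [hall_s3]; ring

theorem isMac_111 (H : Lam) : IsMac [1, 1, 1] H ↔ H = M111 := by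
  unfold IsMac
  rw [conj_111]
  show (_ ∈ Submodule.span K {F : Lam | ∃ m, IsPar m ∧ m.sum = 3 ∧ Dom m [1, 1, 1] ∧
      F = schur m} ∧
    _ ∈ Submodule.span K {F : Lam | ∃ m, IsPar m ∧ m.sum = 3 ∧ Dom m [3] ∧ F = schur m} ∧
    hall H (schur [3]) = 1) ↔ _
  rw [span_3, span_111]
  constructor
  · rintro ⟨-, ⟨c, hc⟩, h1⟩
    obtain ⟨α, β, γ, rfl⟩ : ∃ α β γ, H = F3 α β γ := ⟨_, _, _, pleth_form t_pow hc⟩
    rw [pleth_F3] at hc
    rw [hall_s3] at h1
    exact row_unique t_pow hc h1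
  · rintro rfl
    unfold M111 S3
    refine ⟨⟨_, _, _, pleth_F3 _ _ _ _⟩, ⟨(1 - t) * (1 - t ^ 2) * (1 - t ^ 3), ?_⟩, ?_⟩
    · rw [pleth_F3]
      congr 1 <;> ring
    · rw [hall_s3]; ring

theorem isMac_21 (H : Lam) : IsMac [2, 1] H ↔ H = M21 := by
  unfold IsMac
  rw [conj_21]
  show (_ ∈ Submodule.span K {F : Lam | ∃ m, IsPar m ∧ m.sum = 3 ∧ Dom m [2, 1] ∧
      F = schur m} ∧
    _ ∈ Submodule.span K {F : Lam | ∃ m, IsPar m ∧ m.sum = 3 ∧ Dom m [2, 1] ∧ F = schur m} ∧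
    hall H (schur [3]) = 1) ↔ _
  rw [span_21, span_21]
  constructor
  · rintro ⟨⟨a1, a2, a3, ha, ha'⟩, ⟨b1, b2, b3, hb, hb'⟩, h1⟩
    obtain ⟨α, β, γ, rfl⟩ : ∃ α β γ, H = F3 α β γ := ⟨_, _, _, pleth_form q_pow ha⟩
    rw [pleth_F3] at ha hb
    rw [hall_s3] at h1
    obtain ⟨e1, e2, e3⟩ := F3_inj ha
    obtain ⟨f1, f2, f3⟩ := F3_inj hb
    have n1 : 1 - q ≠ 0 := by have := q_pow 0; rwa [zero_add, pow_one] at this
    have n2 : 1 - t ≠ 0 := by have := t_pow 0; rwa [zero_add, pow_one] at this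
    have g1 : (1 - q) ^ 2 * α - (1 - q ^ 2) * β + (1 + q + q ^ 2) * γ = 0 := by
      have : (1 - q) * ((1 - q) ^ 2 * α - (1 - q ^ 2) * β + (1 + q + q ^ 2) * γ) = 0 := by
        linear_combination ha' + e1 - e2 + e3
      exact (mul_eq_zero.1 this).resolve_left n1
    have g2 : (1 - t) ^ 2 * α - (1 - t ^ 2) * β + (1 + t + t ^ 2) * γ = 0 := by
      have : (1 - t) * ((1 - t) ^ 2 * α - (1 - t ^ 2) * β + (1 + t + t ^ 2) * γ) = 0 := by
        linear_combination hb' + f1 - f2 + f3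
      exact (mul_eq_zero.1 this).resolve_left n2
    -- elimination
    have k1 : (q - t) * (β - (1 - q * t) / 2) = 0 := by
      have : 2 * ((q - t) * (β - (1 - q * t) / 2)) = 0 := by
        linear_combination t * (g1 - (1 + q + q ^ 2) * h1) - q * (g2 - (1 + t + t ^ 2) * h1)
      exact (mul_eq_zero.1 this).resolve_left (by norm_num)
    have k2 : β = (1 - q * t) / 2 := by
      have := (mul_eq_zero.1 k1).resolve_left q_ne_t
      linear_combination this
    have k3 : α = (1 + 2 * (q + t) + q * t) / 6 := by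
      have : q * (α - (1 + 2 * (q + t) + q * t) / 6) = 0 := by
        linear_combination (-1 / 3) * (g1 - (1 + q + q ^ 2) * h1) - (1 / 3) * (2 + q) * k2
      have := (mul_eq_zero.1 this).resolve_left q_ne
      linear_combination this
    have k4 : γ = (1 - (q + t) + q * t) / 3 := by
      linear_combination h1 - k2 - k3
    rw [k2, k3, k4]
    rfl
  · rintro rfl
    unfold M21 S3
    refine ⟨⟨_, _, _, pleth_F3 _ _ _ _, by ring⟩, ⟨_, _, _, pleth_F3 _ _ _ _, by ring⟩, ?_⟩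
    rw [hall_s3]; ring

end DeltaSchur
end

section

/-!
# MP_e83f70_co: positivity for `n = 3`
-/

set_option autoImplicit false

namespace DeltaSchur

open MvPolynomial

/-- The coefficients of `e_3`. -/
noncomputable def W3 : K := 1 / ((q ^ 2 - t) * (q - t))
/-- The coefficients of `e_3`. -/
noncomputable def W21 : K := (1 + q + t) / ((q - t ^ 2) * (t - q ^ 2))
/-- The coefficients of `e_3`. -/
noncomputable def W111 : K := 1 / ((t ^ 2 - q) * (t - q))

theorem CC_W (i j : ℕ) : CC i j = W3 * ((q * q ^ 2) ^ j * hh q (q ^ 2) i) +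
    W21 * ((q * t) ^ j * hh q t i) + W111 * ((t * t ^ 2) ^ j * hh t (t ^ 2) i) := by
  unfold CC W3 W21 W111
  have e1 : (q * q ^ 2) ^ j = q ^ (3 * j) := by
    rw [← pow_succ', ← pow_mul]
  have e2 : (t * t ^ 2) ^ j = t ^ (3 * j) := by
    rw [← pow_succ', ← pow_mul]
  rw [e1, e2]
  ring

theorem e3_exp : e 3 = W3 • M3 + W21 • M21 + W111 • M111 := by
  have n1 := q_ne_t
  have n2 := q2_ne_t
  have n3 := t2_ne_q
  have n4 : t - q ≠ 0 := by
    intro h; apply n1; rw [← neg_sub, h, neg_zero]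
  have n5 : q - t ^ 2 ≠ 0 := by
    intro h; apply n3; rw [← neg_sub, h, neg_zero]
  have n6 : t - q ^ 2 ≠ 0 := by
    intro h; apply n2; rw [← neg_sub, h, neg_zero]
  rw [e3_eq]
  unfold M3 M21 M111 S3
  rw [F3_smul, F3_smul, F3_smul, F3_add, F3_add]
  unfold W3 W21 W111
  congr 1
  · field_simp
    ring
  · field_simp
    ring
  · field_simp
    ring

theorem ev_3 (l : List ℕ) : evB [3] (schur l) = sv q (q ^ 2) l := by
  refine eval_schur _ (fun k => ?_) l
  unfold evB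
  rw [aeval_X]
  simp [Finset.sum_range_succ]
  ring

theorem ev_21 (l : List ℕ) : evB [2, 1] (schur l) = sv q t l := by
  refine eval_schur _ (fun k => ?_) l
  unfold evB
  rw [aeval_X]
  simp [Finset.sum_range_succ]
  ring

theorem ev_111 (l : List ℕ) : evB [1, 1, 1] (schur l) = sv t (t ^ 2) l := by
  refine eval_schur _ (fun k => ?_) l
  unfold evB
  rw [aeval_X]
  simp [Finset.sum_range_succ]
  ring

theorem S3_smul_add (w1 w2 w3 a1 a2 a3 b1 b2 b3 : K) :
    w1 • S3 a1 b1 + w2 • S3 a2 b2 + w3 • S3 a3 b3 =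
    F3 ((w1 * ((1 + 2 * a1 + b1) / 6) + w2 * ((1 + 2 * a2 + b2) / 6)) +
        w3 * ((1 + 2 * a3 + b3) / 6))
      ((w1 * ((1 - b1) / 2) + w2 * ((1 - b2) / 2)) + w3 * ((1 - b3) / 2))
      ((w1 * ((1 - a1 + b1) / 3) + w2 * ((1 - a2 + b2) / 3)) + w3 * ((1 - a3 + b3) / 3)) := by
  unfold S3
  rw [F3_smul, F3_smul, F3_smul, F3_add, F3_add]

theorem F3_homog (α β γ : K) : IsWeightedHomogeneous wt (F3 α β γ) 3 := by
  unfold F3
  refine ((IsWeightedHomogeneous.C_mul ?_ _).add (IsWeightedHomogeneous.C_mul ?_ _)).add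
    (IsWeightedHomogeneous.C_mul ?_ _)
  · exact (isWeightedHomogeneous_X K wt 0).pow 3
  · exact (isWeightedHomogeneous_X K wt 0).mul (isWeightedHomogeneous_X K wt 1)
  · exact isWeightedHomogeneous_X K wt 2

/-- A weighted sum of the values at the three points. -/
noncomputable def LL (κ : K → K → K) (f : K → K → K) : K :=
  W3 * f q (q ^ 2) * κ q (q ^ 2) + W21 * f q t * κ q t + W111 * f t (t ^ 2) * κ t (t ^ 2)

theorem LL_sum {ι : Type*} (κ : K → K → K) (s : Finset ι) (f : ι → K → K → K) :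
    LL κ (fun x y => ∑ i ∈ s, f i x y) = ∑ i ∈ s, LL κ (f i) := by
  unfold LL
  rw [Finset.sum_add_distrib, Finset.sum_add_distrib]
  simp only [Finset.mul_sum, Finset.sum_mul]

theorem LL_one (i j : ℕ) : LL (fun _ _ => 1) (fun x y => (x * y) ^ j * hh x y i) ∈ Sqt := by
  have h := CC_mem i j
  rw [CC_W] at h
  unfold LL
  simpa using h

theorem LL_mul (i j : ℕ) :
    LL (fun x y => x * y) (fun x y => (x * y) ^ j * hh x y i) ∈ Sqt := by
  have h := CC_mem i (j + 1)
  rw [CC_W] at h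
  unfold LL
  simp only [pow_succ (q * q ^ 2), pow_succ (q * t), pow_succ (t * t ^ 2)] at h
  have e : W3 * ((q * q ^ 2) ^ j * hh q (q ^ 2) i) * (q * q ^ 2) +
      W21 * ((q * t) ^ j * hh q t i) * (q * t) +
      W111 * ((t * t ^ 2) ^ j * hh t (t ^ 2) i) * (t * t ^ 2) =
      W3 * ((q * q ^ 2) ^ j * (q * q ^ 2) * hh q (q ^ 2) i) +
        W21 * ((q * t) ^ j * (q * t) * hh q t i) +
        W111 * ((t * t ^ 2) ^ j * (t * t ^ 2) * hh t (t ^ 2) i) := by ring
  rw [e]; exact h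

theorem hh_add_mul (x y : K) (i : ℕ) : (x + y) * hh x y (i + 1) =
    hh x y (i + 2) + x * y * hh x y i := by
  have h1 := hh_succ x y (i + 1)
  have h2 := hh_succ x y i
  have e : i + 1 + 1 = i + 2 := rfl
  rw [e] at h1
  rw [h1]
  rw [h2]
  ring

theorem LL_add (i j : ℕ) :
    LL (fun x y => x + y) (fun x y => (x * y) ^ j * hh x y i) ∈ Sqt := by
  cases i with
  | zero =>
    have h := CC_mem 1 j
    rw [CC_W] at h
    have e : ∀ x y : K, hh x y 1 = x + y := fun x y => by simp [hh, Finset.sum_range_succ]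
    have e0 : ∀ x y : K, hh x y 0 = 1 := fun x y => by simp [hh]
    rw [e, e, e] at h
    unfold LL
    simp only [e0, mul_one]
    have e2 : W3 * (q * q ^ 2) ^ j * (q + q ^ 2) + W21 * (q * t) ^ j * (q + t) +
      W111 * (t * t ^ 2) ^ j * (t + t ^ 2) = W3 * ((q * q ^ 2) ^ j * (q + q ^ 2)) +
        W21 * ((q * t) ^ j * (q + t)) + W111 * ((t * t ^ 2) ^ j * (t + t ^ 2)) := by ring
    rw [e2]; exact h
  | succ i =>
    have h := add_mem (CC_mem (i + 2) j) (CC_mem i (j + 1))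
    rw [CC_W, CC_W] at h
    unfold LL
    have e : ∀ w x y : K, w * ((x * y) ^ j * hh x y (i + 1)) * (x + y) =
        w * ((x * y) ^ j * hh x y (i + 2)) + w * ((x * y) ^ (j + 1) * hh x y i) := by
      intro w x y
      have h1 := hh_add_mul x y i
      rw [pow_succ]
      linear_combination (w * (x * y) ^ j) * h1
    rw [e, e, e]
    have e2 : (W3 * ((q * q ^ 2) ^ j * hh q (q ^ 2) (i + 2)) +
        W3 * ((q * q ^ 2) ^ (j + 1) * hh q (q ^ 2) i)) +
        (W21 * ((q * t) ^ j * hh q t (i + 2)) + W21 * ((q * t) ^ (j + 1) * hh q t i)) +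
        (W111 * ((t * t ^ 2) ^ j * hh t (t ^ 2) (i + 2)) +
          W111 * ((t * t ^ 2) ^ (j + 1) * hh t (t ^ 2) i)) =
        (W3 * ((q * q ^ 2) ^ j * hh q (q ^ 2) (i + 2)) + W21 * ((q * t) ^ j * hh q t (i + 2)) +
          W111 * ((t * t ^ 2) ^ j * hh t (t ^ 2) (i + 2))) +
        (W3 * ((q * q ^ 2) ^ (j + 1) * hh q (q ^ 2) i) + W21 * ((q * t) ^ (j + 1) * hh q t i) +
          W111 * ((t * t ^ 2) ^ (j + 1) * hh t (t ^ 2) i)) := by ring
    rw [e2]; exact h

theorem sub_one_of {a : K} (h : 1 - a ≠ 0) : a - 1 ≠ 0 := by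
  intro hc; apply h; rw [← neg_sub, hc, neg_zero]

theorem LL_sv {κ : K → K → K}
    (hκ : ∀ i j : ℕ, LL κ (fun x y => (x * y) ^ j * hh x y i) ∈ Sqt) {l : List ℕ}
    (hl : IsPar l) : LL κ (fun x y => sv x y l) ∈ Sqt := by
  have n1 : q - 1 ≠ 0 := sub_one_of (by have := q_pow 0; rwa [zero_add, pow_one] at this)
  have n2 : q ^ 2 - 1 ≠ 0 := sub_one_of (q_pow 1)
  have n3 : t - 1 ≠ 0 := sub_one_of (by have := t_pow 0; rwa [zero_add, pow_one] at this)
  have n4 : t ^ 2 - 1 ≠ 0 := sub_one_of (t_pow 1)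
  have n5 : q - q ^ 2 ≠ 0 := by
    have : q - q ^ 2 = -(q * (q - 1)) := by ring
    rw [this]; exact neg_ne_zero.2 (mul_ne_zero q_ne n1)
  have n6 : t - t ^ 2 ≠ 0 := by
    have : t - t ^ 2 = -(t * (t - 1)) := by ring
    rw [this]; exact neg_ne_zero.2 (mul_ne_zero t_ne n3)
  rcases sv_form l hl with ⟨a, b, c, -, -, h⟩ | h
  · have e : LL κ (fun x y => sv x y l) = LL κ (fun x y => br x y a b c) := by
      unfold LL
      simp only
      rw [h q (q ^ 2) n1 n2 n5, h q t n1 n3 q_ne_t, h t (t ^ 2) n3 n4 n6]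
    rw [e]
    unfold br
    rw [LL_sum]
    refine AddSubmonoid.sum_mem _ fun u _ => ?_
    rw [LL_sum]
    exact AddSubmonoid.sum_mem _ fun v _ => hκ _ _
  · have e : LL κ (fun x y => sv x y l) = 0 := by
      unfold LL
      simp only
      rw [h q (q ^ 2) n1 n2 n5, h q t n1 n3 q_ne_t, h t (t ^ 2) n3 n4 n6]
      ring
    rw [e]; exact zero_mem _

/-- The case `n = 3`. -/
theorem pos3 {l β : List ℕ} (hl : IsPar l) (hβ : IsPar β) {D : Lam →ₗ[K] Lam}
    (hD : IsDelta 3 (schur l) D) : hall (D (e 3)) (schur β) ∈ Sqt := by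
  have d1 := hD [3] M3 ispar_3 rfl ((isMac_3 _).2 rfl)
  have d2 := hD [2, 1] M21 ispar_21 rfl ((isMac_21 _).2 rfl)
  have d3 := hD [1, 1, 1] M111 ispar_111 rfl ((isMac_111 _).2 rfl)
  rw [ev_3] at d1
  rw [ev_21] at d2
  rw [ev_111] at d3
  have hDe : D (e 3) = (W3 * sv q (q ^ 2) l) • M3 + (W21 * sv q t l) • M21 +
      (W111 * sv t (t ^ 2) l) • M111 := by
    rw [e3_exp, map_add, map_add, map_smul, map_smul, map_smul, d1, d2, d3, smul_smul, smul_smul,
      smul_smul]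
  unfold M3 M21 M111 at hDe
  rw [S3_smul_add] at hDe
  by_cases h3 : β.sum = 3
  · rw [hDe]
    rcases par3 hβ h3 with rfl | rfl | rfl
    · have h := LL_sv LL_one hl
      rw [hall_s3]
      unfold LL at h
      simp only [mul_one] at h
      convert h using 1
      ring
    · have h := LL_sv LL_add hl
      rw [hall_s21]
      unfold LL at h
      convert h using 1
      ring
    · have h := LL_sv LL_mul hl
      rw [hall_s111]
      unfold LL at h
      convert h using 1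
      ring
  · rw [hDe, hall_eq_zero (F3_homog _ _ _) (schur_homog β) (Ne.symm h3)]
    exact zero_mem _

end DeltaSchur
end

section

/-!
# MP_e83f70_co: the cases `n = 1` and `n = 2`
-/

set_option autoImplicit false

namespace DeltaSchur

open MvPolynomial

/-! ### `n = 2` -/

/-- `α p_1 ^ 2 + β p_2`. -/
noncomputable def F2 (α β : K) : Lam := C α * X 0 ^ 2 + C β * X 1

theorem F2_add (α β α' β' : K) : F2 α β + F2 α' β' = F2 (α + α') (β + β') := by
  unfold F2; simp only [C_add]; ring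

theorem F2_smul (c α β : K) : c • F2 α β = F2 (c * α) (c * β) := by
  unfold F2; rw [smul_eq_C_mul]; simp only [C_mul]; ring

/-- The monomials. -/
noncomputable def k1 : ℕ →₀ ℕ := Finsupp.single 0 2
/-- The monomials. -/
noncomputable def k2 : ℕ →₀ ℕ := Finsupp.single 1 1

theorem k12 : k1 ≠ k2 := fun hc => by
  have := DFunLike.congr_fun hc 1
  simp [k1, k2] at this

theorem F2_mon (α β : K) : F2 α β = monomial k1 α + monomial k2 β := by
  unfold F2 k1 k2
  rw [← C_mul_X_pow_eq_monomial]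
  congr 1
  have h1 : (X 1 : Lam) = monomial (Finsupp.single 1 1) 1 := rfl
  rw [h1, C_mul_monomial, mul_one]

theorem coeff_F2_1 (α β : K) : coeff k1 (F2 α β) = α := by
  rw [F2_mon, coeff_add, coeff_monomial, coeff_monomial, if_pos rfl, if_neg k12.symm]
  ring

theorem coeff_F2_2 (α β : K) : coeff k2 (F2 α β) = β := by
  rw [F2_mon, coeff_add, coeff_monomial, coeff_monomial, if_neg k12, if_pos rfl]
  ring

theorem F2_inj {α β α' β' : K} (h : F2 α β = F2 α' β') : α = α' ∧ β = β' :=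
  ⟨by rw [← coeff_F2_1 α β, h, coeff_F2_1], by rw [← coeff_F2_2 α β, h, coeff_F2_2]⟩

theorem supp_F2 (α β : K) : (F2 α β).support ⊆ {k1, k2} := by
  classical
  intro d hd
  rw [mem_support_iff, F2_mon, coeff_add, coeff_monomial, coeff_monomial] at hd
  simp only [Finset.mem_insert, Finset.mem_singleton]
  by_contra hc
  push Not at hc
  rw [if_neg hc.1.symm, if_neg hc.2.symm] at hd
  simp at hd

theorem zc_k1 : zc k1 = 2 := by
  unfold zc k1
  rw [Finsupp.support_single _ (by norm_num), Finset.prod_singleton]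
  simp

theorem zc_k2 : zc k2 = 2 := by
  unfold zc k2
  rw [Finsupp.support_single _ (by norm_num), Finset.prod_singleton]
  simp
  norm_num

theorem hall_F2 (α β : K) (G : Lam) :
    hall (F2 α β) G = 2 * α * coeff k1 G + 2 * β * coeff k2 G := by
  classical
  rw [hall_eq _ _ _ (supp_F2 α β), Finset.sum_insert, Finset.sum_singleton,
    coeff_F2_1, coeff_F2_2, zc_k1, zc_k2]
  · ring
  · simp [k12]

theorem schur_2 : schur [2] = F2 (1 / 2) (1 / 2) := by
  unfold F2
  rw [← h2_eq]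
  unfold schur
  show Matrix.det (n := Fin 1) _ = _
  rw [Matrix.det_fin_one]
  have := hz_nat 2
  simpa using this

theorem schur_11 : schur [1, 1] = F2 (1 / 2) (-1 / 2) := by
  have h0 : schur [1, 1] = h 1 * h 1 - h 2 * h 0 := by
    unfold schur
    show Matrix.det (n := Fin 2) _ = _
    rw [Matrix.det_fin_two]
    have a1 := hz_nat 2
    have a2 := hz_nat 1
    have a4 := hz_nat 0
    norm_num at a1 a2 a4
    rw [← a1, ← a2, ← a4]
    rfl
  have e8 : h 0 = 1 := by rw [h]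
  rw [h0, h2_eq, h1_eq, e8]
  unfold F2
  have f1 : (1 : Lam) - C (1 / 2) = C (1 / 2) := by rw [← C_1, ← C_sub]; norm_num
  have f3 : (C (-1 / 2) : Lam) = - C (1 / 2) := by rw [← C_neg]; norm_num
  linear_combination (X 0 ^ 2) * f1 - X 1 * f3

theorem e2_eq : e 2 = F2 (1 / 2) (-1 / 2) := by
  have e8 : e 0 = 1 := by rw [e]
  have e9 : e 1 = X 0 := by rw [e]; simp [e8]
  have e10 : e 2 = C (1 / 2) * X 0 ^ 2 - C (1 / 2) * X 1 := by
    rw [e, Fin.sum_univ_two]
    simp [e8, e9]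
    have : (1 + 1 : K)⁻¹ = 2⁻¹ := by norm_num
    rw [this]
    ring
  rw [e10]
  unfold F2
  have f3 : (C (-1 / 2) : Lam) = - C (1 / 2) := by rw [← C_neg]; norm_num
  rw [f3]
  ring

theorem par2 {m : List ℕ} (h1 : IsPar m) (h2 : m.sum = 2) : m = [2] ∨ m = [1, 1] := by
  obtain ⟨h3, h4⟩ := h1
  match m, h2, h3, h4 with
  | [], h2, _, _ => simp at h2
  | [a], h2, _, _ => simp at h2; left; rw [h2]
  | [a, b], h2, h3, h4 =>
    simp at h2 h3
    have ha := h4 a (by simp)
    have hb := h4 b (by simp)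
    right
    have : a = 1 ∧ b = 1 := by omega
    rw [this.1, this.2]
  | a :: b :: c :: l, h2, h3, h4 =>
    simp at h2
    have ha := h4 a (by simp)
    have hb := h4 b (by simp)
    have hc := h4 c (by simp)
    omega

theorem ispar_2 : IsPar [2] := ⟨by simp, by simp⟩
theorem ispar_11 : IsPar [1, 1] := ⟨by simp, by simp⟩

theorem conj_2 : conj [2] = [1, 1] := by decide
theorem conj_11 : conj [1, 1] = [2] := by decide

theorem dom_2_11 : Dom [2] [1, 1] := by
  intro i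
  match i with
  | 0 => simp
  | 1 => simp
  | n + 2 => simp

theorem ndom_11_2 : ¬ Dom [1, 1] [2] := fun hc => by have := hc 1; simp at this

theorem set_2 : {F : Lam | ∃ m, IsPar m ∧ m.sum = 2 ∧ Dom m [2] ∧ F = schur m} = {schur [2]} := by
  ext F
  simp only [Set.mem_ofPred_eq, Set.mem_singleton_iff]
  constructor
  · rintro ⟨m, h1, h2, h3, rfl⟩
    rcases par2 h1 h2 with rfl | rfl
    · rfl
    · exact (ndom_11_2 h3).elim
  · rintro rfl
    exact ⟨[2], ispar_2, rfl, dom_refl _, rfl⟩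

theorem set_11 : {F : Lam | ∃ m, IsPar m ∧ m.sum = 2 ∧ Dom m [1, 1] ∧ F = schur m} =
    {schur [2], schur [1, 1]} := by
  ext F
  simp only [Set.mem_ofPred_eq, Set.mem_singleton_iff, Set.mem_insert_iff]
  constructor
  · rintro ⟨m, h1, h2, h3, rfl⟩
    rcases par2 h1 h2 with rfl | rfl
    · left; rfl
    · right; rfl
  · rintro (rfl | rfl)
    · exact ⟨[2], ispar_2, rfl, dom_2_11, rfl⟩
    · exact ⟨[1, 1], ispar_11, rfl, dom_refl _, rfl⟩

theorem span_2 (F : Lam) : F ∈ Submodule.span K {F : Lam | ∃ m, IsPar m ∧ m.sum = 2 ∧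
    Dom m [2] ∧ F = schur m} ↔ ∃ c : K, F = F2 (c / 2) (c / 2) := by
  rw [set_2, Submodule.mem_span_singleton]
  constructor
  · rintro ⟨c, rfl⟩
    refine ⟨c, ?_⟩
    rw [schur_2, F2_smul]
    congr 1 <;> ring
  · rintro ⟨c, rfl⟩
    refine ⟨c, ?_⟩
    rw [schur_2, F2_smul]
    congr 1 <;> ring

theorem span_11 (F : Lam) : F ∈ Submodule.span K {F : Lam | ∃ m, IsPar m ∧ m.sum = 2 ∧
    Dom m [1, 1] ∧ F = schur m} ↔ ∃ α β : K, F = F2 α β := by
  rw [set_11, Submodule.mem_span_pair]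
  constructor
  · rintro ⟨a, b, rfl⟩
    exact ⟨_, _, by rw [schur_2, schur_11, F2_smul, F2_smul, F2_add]⟩
  · rintro ⟨α, β, rfl⟩
    refine ⟨α + β, α - β, ?_⟩
    rw [schur_2, schur_11, F2_smul, F2_smul, F2_add]
    congr 1 <;> ring

theorem pleth_F2 (a α β : K) : pleth a (F2 α β) = F2 ((1 - a) ^ 2 * α) ((1 - a ^ 2) * β) := by
  unfold F2
  rw [map_add, map_mul, map_mul, map_pow, pleth_C, pleth_C, pleth_X, pleth_X, C_mul, C_mul, C_pow]
  have e1 : 1 - a ^ (0 + 1) = 1 - a := by ring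
  rw [e1]
  ring

theorem hall_s2 (α β : K) : hall (F2 α β) (schur [2]) = α + β := by
  rw [schur_2, hall_F2, coeff_F2_1, coeff_F2_2]; ring

theorem hall_s11 (α β : K) : hall (F2 α β) (schur [1, 1]) = α - β := by
  rw [schur_11, hall_F2, coeff_F2_1, coeff_F2_2]; ring

/-- `s_2 + a s_11`. -/
noncomputable def S2 (a : K) : Lam := F2 ((1 + a) / 2) ((1 - a) / 2)

theorem row2_unique {a α β c : K} (ha : ∀ k : ℕ, 1 - a ^ (k + 1) ≠ 0)
    (h1 : F2 ((1 - a) ^ 2 * α) ((1 - a ^ 2) * β) = F2 (c / 2) (c / 2)) (h2 : α + β = 1) :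
    F2 α β = S2 a := by
  obtain ⟨e1, e2⟩ := F2_inj h1
  have n1 : 1 - a ≠ 0 := by have := ha 0; rwa [zero_add, pow_one] at this
  have n2 : 1 - a ^ 2 ≠ 0 := ha 1
  have hc : c = (1 - a) ^ 2 * (1 + a) := by
    linear_combination ((1 - a) ^ 2 * (1 + a)) * h2 - (1 + a) * e1 - (1 - a) * e2
  have f1 : α = (1 + a) / 2 := by
    have : (1 - a) ^ 2 * (α - (1 + a) / 2) = 0 := by
      linear_combination e1 + (1 / 2) * hc
    rcases mul_eq_zero.1 this with h | h
    · exact (pow_ne_zero 2 n1 h).elim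
    · linear_combination h
  have f2 : β = (1 - a) / 2 := by linear_combination h2 - f1
  rw [f1, f2]
  rfl

theorem pleth2_form {a : K} (ha : ∀ k : ℕ, 1 - a ^ (k + 1) ≠ 0) {H : Lam} {α β : K}
    (h : pleth a H = F2 α β) : H = F2 (α / (1 - a) ^ 2) (β / (1 - a ^ 2)) := by
  have n1 : 1 - a ≠ 0 := by have := ha 0; rwa [zero_add, pow_one] at this
  have n2 : 1 - a ^ 2 ≠ 0 := ha 1
  refine pleth_inj ha ?_
  rw [h, pleth_F2]
  congr 1
  · rw [mul_div_cancel₀ _ (pow_ne_zero 2 n1)]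
  · rw [mul_div_cancel₀ _ n2]

theorem isMac_2 (H : Lam) : IsMac [2] H ↔ H = S2 q := by
  unfold IsMac
  rw [conj_2]
  show (_ ∈ Submodule.span K {F : Lam | ∃ m, IsPar m ∧ m.sum = 2 ∧ Dom m [2] ∧ F = schur m} ∧
    _ ∈ Submodule.span K {F : Lam | ∃ m, IsPar m ∧ m.sum = 2 ∧ Dom m [1, 1] ∧ F = schur m} ∧
    hall H (schur [2]) = 1) ↔ _
  rw [span_2, span_11]
  constructor
  · rintro ⟨⟨c, hc⟩, -, h1⟩
    obtain ⟨α, β, rfl⟩ : ∃ α β, H = F2 α β := ⟨_, _, pleth2_form q_pow hc⟩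
    rw [pleth_F2] at hc
    rw [hall_s2] at h1
    exact row2_unique q_pow hc h1
  · rintro rfl
    unfold S2
    refine ⟨⟨(1 - q) * (1 - q ^ 2), ?_⟩, ⟨_, _, pleth_F2 _ _ _⟩, ?_⟩
    · rw [pleth_F2]
      congr 1 <;> ring
    · rw [hall_s2]; ring

theorem isMac_11 (H : Lam) : IsMac [1, 1] H ↔ H = S2 t := by
  unfold IsMac
  rw [conj_11]
  show (_ ∈ Submodule.span K {F : Lam | ∃ m, IsPar m ∧ m.sum = 2 ∧ Dom m [1, 1] ∧ F = schur m} ∧
    _ ∈ Submodule.span K {F : Lam | ∃ m, IsPar m ∧ m.sum = 2 ∧ Dom m [2] ∧ F = schur m} ∧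
    hall H (schur [2]) = 1) ↔ _
  rw [span_2, span_11]
  constructor
  · rintro ⟨-, ⟨c, hc⟩, h1⟩
    obtain ⟨α, β, rfl⟩ : ∃ α β, H = F2 α β := ⟨_, _, pleth2_form t_pow hc⟩
    rw [pleth_F2] at hc
    rw [hall_s2] at h1
    exact row2_unique t_pow hc h1
  · rintro rfl
    unfold S2
    refine ⟨⟨_, _, pleth_F2 _ _ _⟩, ⟨(1 - t) * (1 - t ^ 2), ?_⟩, ?_⟩
    · rw [pleth_F2]
      congr 1 <;> ring
    · rw [hall_s2]; ring

theorem ev_2 (l : List ℕ) : evB [2] (schur l) = sv q 0 l := by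
  refine eval_schur _ (fun k => ?_) l
  unfold evB
  rw [aeval_X]
  simp [Finset.sum_range_succ]
  ring

theorem ev_11 (l : List ℕ) : evB [1, 1] (schur l) = sv t 0 l := by
  refine eval_schur _ (fun k => ?_) l
  unfold evB
  rw [aeval_X]
  simp [Finset.sum_range_succ]
  ring

theorem F2_homog (α β : K) : IsWeightedHomogeneous wt (F2 α β) 2 := by
  unfold F2
  refine (IsWeightedHomogeneous.C_mul ?_ _).add (IsWeightedHomogeneous.C_mul ?_ _)
  · exact (isWeightedHomogeneous_X K wt 0).pow 2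
  · exact isWeightedHomogeneous_X K wt 1

theorem hh_zero (x : K) (m : ℕ) : hh x 0 m = x ^ m := by
  induction m with
  | zero => simp [hh]
  | succ m ih => rw [hh_succ, ih, pow_succ]; ring

theorem pow_diff (u : ℕ) : (q ^ u - t ^ u) / (q - t) ∈ Sqt := by
  cases u with
  | zero => simp
  | succ u =>
    rw [← hh_closed q_ne_t u, mul_div_cancel_left₀ _ q_ne_t]
    have := gen_mem u 0
    rwa [pow_zero, one_mul] at this

theorem two_term (s u v : ℕ) :
    ((q * 0) ^ v * hh q 0 (u - v) * q ^ s - (t * 0) ^ v * hh t 0 (u - v) * t ^ s) / (q - t) ∈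
      Sqt := by
  rw [mul_zero, mul_zero, hh_zero, hh_zero]
  cases v with
  | zero =>
    simp only [pow_zero, one_mul, Nat.sub_zero]
    rw [← pow_add, ← pow_add]
    exact pow_diff (u + s)
  | succ v =>
    simp

theorem two_sv (s : ℕ) {l : List ℕ} (hl : IsPar l) :
    (sv q 0 l * q ^ s - sv t 0 l * t ^ s) / (q - t) ∈ Sqt := by
  have n1 : q - 1 ≠ 0 := sub_one_of (by have := q_pow 0; rwa [zero_add, pow_one] at this)
  have n3 : t - 1 ≠ 0 := sub_one_of (by have := t_pow 0; rwa [zero_add, pow_one] at this)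
  have n4 : (0 : K) - 1 ≠ 0 := by norm_num
  have n5 : q - 0 ≠ 0 := by rw [sub_zero]; exact q_ne
  have n6 : t - 0 ≠ 0 := by rw [sub_zero]; exact t_ne
  rcases sv_form l hl with ⟨a, b, c, -, -, h⟩ | h
  · rw [h q 0 n1 n4 n5, h t 0 n3 n4 n6]
    unfold br
    rw [Finset.sum_mul, Finset.sum_mul, ← Finset.sum_sub_distrib, Finset.sum_div]
    refine AddSubmonoid.sum_mem _ fun u _ => ?_
    rw [Finset.sum_mul, Finset.sum_mul, ← Finset.sum_sub_distrib, Finset.sum_div]
    exact AddSubmonoid.sum_mem _ fun v _ => two_term s u v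
  · rw [h q 0 n1 n4 n5, h t 0 n3 n4 n6]
    simp

theorem e2_exp : e 2 = (1 / (q - t)) • S2 q + (-(1 / (q - t))) • S2 t := by
  have n1 := q_ne_t
  rw [e2_eq]
  unfold S2
  rw [F2_smul, F2_smul, F2_add]
  congr 1
  · field_simp
    ring
  · field_simp
    ring

/-- The case `n = 2`. -/
theorem pos2 {l β : List ℕ} (hl : IsPar l) (hβ : IsPar β) {D : Lam →ₗ[K] Lam}
    (hD : IsDelta 2 (schur l) D) : hall (D (e 2)) (schur β) ∈ Sqt := by
  have d1 := hD [2] (S2 q) ispar_2 rfl ((isMac_2 _).2 rfl)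
  have d2 := hD [1, 1] (S2 t) ispar_11 rfl ((isMac_11 _).2 rfl)
  rw [ev_2] at d1
  rw [ev_11] at d2
  have hDe : D (e 2) = (1 / (q - t) * sv q 0 l) • S2 q + (-(1 / (q - t)) * sv t 0 l) • S2 t := by
    rw [e2_exp, map_add, map_smul, map_smul, d1, d2, smul_smul, smul_smul]
  unfold S2 at hDe
  rw [F2_smul, F2_smul, F2_add] at hDe
  by_cases h2 : β.sum = 2
  · rw [hDe]
    rcases par2 hβ h2 with rfl | rfl
    · have h := two_sv 0 hl
      rw [hall_s2]
      convert h using 1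
      ring
    · have h := two_sv 1 hl
      rw [hall_s11]
      convert h using 1
      ring
  · rw [hDe, hall_eq_zero (F2_homog _ _) (schur_homog β) (Ne.symm h2)]
    exact zero_mem _

/-! ### `n = 1` -/

theorem e1_eq : e 1 = X 0 := by
  have e8 : e 0 = 1 := by rw [e]
  rw [e]; simp [e8]

theorem schur_1 : schur [1] = X 0 := by
  rw [← h1_eq]
  unfold schur
  show Matrix.det (n := Fin 1) _ = _
  rw [Matrix.det_fin_one]
  have := hz_nat 1
  simpa using this

theorem par1 {m : List ℕ} (h1 : IsPar m) (h2 : m.sum = 1) : m = [1] := by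
  obtain ⟨h3, h4⟩ := h1
  match m, h2, h3, h4 with
  | [], h2, _, _ => simp at h2
  | [a], h2, _, _ => simp at h2; rw [h2]
  | a :: b :: l, h2, h3, h4 =>
    simp at h2
    have ha := h4 a (by simp)
    have hb := h4 b (by simp)
    omega

theorem ispar_1 : IsPar [1] := ⟨by simp, by simp⟩

theorem conj_1 : conj [1] = [1] := by decide

theorem set_1 : {F : Lam | ∃ m, IsPar m ∧ m.sum = 1 ∧ Dom m [1] ∧ F = schur m} = {X 0} := by
  ext F
  simp only [Set.mem_ofPred_eq, Set.mem_singleton_iff]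
  constructor
  · rintro ⟨m, h1, h2, h3, rfl⟩
    rw [par1 h1 h2, schur_1]
  · rintro rfl
    exact ⟨[1], ispar_1, rfl, dom_refl _, schur_1.symm⟩

theorem hall_X (c : K) (G : Lam) : hall (c • X 0) G = c * coeff (Finsupp.single 0 1) G := by
  classical
  have h1 : (c • X 0 : Lam) = monomial (Finsupp.single 0 1) c := by
    rw [smul_eq_C_mul]
    have h1 : (X 0 : Lam) = monomial (Finsupp.single 0 1) 1 := rfl
    rw [h1, C_mul_monomial, mul_one]
  have h2 : (c • X 0 : Lam).support ⊆ {Finsupp.single 0 1} := by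
    rw [h1]; exact support_monomial_subset
  rw [hall_eq _ _ _ h2, Finset.sum_singleton, h1, coeff_monomial, if_pos rfl]
  have h3 : zc (Finsupp.single 0 1) = 1 := by
    unfold zc
    rw [Finsupp.support_single _ (by norm_num), Finset.prod_singleton]
    simp
  rw [h3, mul_one]

theorem coeff_X_0 : coeff (Finsupp.single 0 1) (X 0 : Lam) = 1 := by
  simp

theorem isMac_1 (H : Lam) : IsMac [1] H ↔ H = X 0 := by
  unfold IsMac
  rw [conj_1]
  show (_ ∈ Submodule.span K {F : Lam | ∃ m, IsPar m ∧ m.sum = 1 ∧ Dom m [1] ∧ F = schur m} ∧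
    _ ∈ Submodule.span K {F : Lam | ∃ m, IsPar m ∧ m.sum = 1 ∧ Dom m [1] ∧ F = schur m} ∧
    hall H (schur [1]) = 1) ↔ _
  rw [set_1, Submodule.mem_span_singleton, Submodule.mem_span_singleton, schur_1]
  have hp : ∀ a : K, pleth a (X 0) = (1 - a) • X 0 := by
    intro a
    rw [pleth_X, smul_eq_C_mul, zero_add, pow_one]
  have n1 : 1 - q ≠ 0 := by have := q_pow 0; rwa [zero_add, pow_one] at this
  constructor
  · rintro ⟨⟨c, hc⟩, -, h1⟩
    have h2 : H = (c / (1 - q)) • X 0 := by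
      refine pleth_inj q_pow ?_
      rw [← hc, map_smul, hp, smul_smul, div_mul_cancel₀ _ n1]
    rw [h2, hall_X, coeff_X_0, mul_one] at h1
    rw [h2, h1, one_smul]
  · rintro rfl
    refine ⟨⟨1 - q, (hp q).symm⟩, ⟨1 - t, (hp t).symm⟩, ?_⟩
    have h1 := hall_X 1 (X 0)
    rw [one_smul, coeff_X_0, mul_one] at h1
    exact h1

theorem one_mem' : (1 : K) ∈ Sqt := by
  have := gen_mem 0 0
  simpa [hh] using this

theorem ev_1 {l : List ℕ} (hl : IsPar l) : evB [1] (schur l) ∈ Sqt := by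
  have hX : ∀ k, evB [1] (X k) = 1 ^ (k + 1) := by
    intro k
    unfold evB
    rw [aeval_X]
    simp
  have hh1 : ∀ m, evB [1] (h m) = 1 := by
    intro m
    have := (NR.one 1).eval (evB [1]) hX m
    simpa using this
  have hz1 : ∀ z : ℤ, 0 ≤ z → evB [1] (hz z) = 1 := by
    intro z hz0
    unfold hz
    rw [if_neg (by omega)]
    exact hh1 _
  match l, hl.2 with
  | [], _ =>
    have : schur [] = 1 := by simp [schur]
    rw [this, map_one]
    exact one_mem'
  | [a], _ =>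
    have : schur [a] = hz a := by
      unfold schur
      show Matrix.det (n := Fin 1) _ = _
      rw [Matrix.det_fin_one]
      simp
    rw [this, hz1 _ (by omega)]
    exact one_mem'
  | a :: b :: l', h2 =>
    set l := a :: b :: l' with hldef
    have hlen : 2 ≤ l.length := by rw [hldef]; simp
    have h0 : evB [1] (schur l) = 0 := by
      unfold schur
      rw [AlgHom.map_det]
      have hpos : ∀ i : Fin l.length, 0 < l.get i := fun i => h2 _ (List.get_mem _ _)
      refine Matrix.det_zero_of_column_eq (i := ⟨l.length - 2, by omega⟩)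
        (j := ⟨l.length - 1, by omega⟩) (by simp only [ne_eq, Fin.mk.injEq]; omega) fun i => ?_
      rw [AlgHom.mapMatrix_apply, Matrix.map_apply, Matrix.map_apply, Matrix.of_apply,
        Matrix.of_apply]
      have h3 := hpos i
      have h4 := i.2
      rw [hz1 _ (by simp only; omega), hz1 _ (by simp only; omega)]
    rw [h0]
    exact zero_mem _

/-- The case `n = 1`. -/
theorem pos1 {l β : List ℕ} (hl : IsPar l) (hβ : IsPar β) {D : Lam →ₗ[K] Lam}
    (hD : IsDelta 1 (schur l) D) : hall (D (e 1)) (schur β) ∈ Sqt := by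
  have d1 := hD [1] (X 0) ispar_1 rfl ((isMac_1 _).2 rfl)
  rw [e1_eq, d1, hall_X]
  by_cases h1 : β.sum = 1
  · rw [par1 hβ h1, schur_1, coeff_X_0, mul_one]
    exact ev_1 hl
  · have h2 := schur_homog β
    have h3 : coeff (Finsupp.single 0 1) (schur β) = 0 := by
      by_contra hc
      have := h2 hc
      apply h1
      rw [← this]
      simp [Finsupp.weight, wt]
    rw [h3, mul_zero]
    exact zero_mem _

end DeltaSchur
end

section

/-!
# MP_e83f70_co: existence of the operators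
-/

set_option autoImplicit false

namespace DeltaSchur

open MvPolynomial

theorem exists_op {ι : Type*} (v : ι → Lam) (hv : LinearIndependent K v) (c : ι → K) :
    ∃ D : Lam →ₗ[K] Lam, ∀ i, D (v i) = c i • v i := by
  let b := Module.Basis.span hv
  obtain ⟨g, hg⟩ := LinearMap.exists_extend (b.constr K fun i => c i • v i)
  refine ⟨g, fun i => ?_⟩
  have h1 : b.constr K (fun i => c i • v i) (b i) = c i • v i := Module.Basis.constr_basis _ _ _ _
  rw [← hg] at h1
  have h2 : ((b i : Submodule.span K (Set.range v)) : Lam) = v i := by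
    rw [Module.Basis.span_apply]
  rw [LinearMap.comp_apply, Submodule.subtype_apply, h2] at h1
  exact h1

theorem indep3 : LinearIndependent K ![M3, M21, M111] := by
  rw [Fintype.linearIndependent_iff]
  intro g hg
  rw [Fin.sum_univ_three] at hg
  simp only [Matrix.cons_val_zero, Matrix.cons_val_one, Matrix.cons_val_two, Matrix.tail_cons,
    Matrix.head_cons] at hg
  unfold M3 M21 M111 at hg
  rw [S3_smul_add] at hg
  have h0 : (0 : Lam) = F3 0 0 0 := by unfold F3; simp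
  rw [h0] at hg
  obtain ⟨e1, e2, e3⟩ := F3_inj hg
  -- the coefficients of `s_3`, `s_21`, `s_111`
  have f1 : g 0 + g 1 + g 2 = 0 := by linear_combination e1 + e2 + e3
  have f2 : g 0 * (q + q ^ 2) + g 1 * (q + t) + g 2 * (t + t ^ 2) = 0 := by
    linear_combination 2 * e1 - e3
  have f3 : g 0 * q ^ 3 + g 1 * (q * t) + g 2 * t ^ 3 = 0 := by
    linear_combination e1 - e2 + e3
  have k1 : (q - t) * (q ^ 2 - t) * g 0 = 0 := by
    linear_combination f3 - t * f2 + t ^ 2 * f1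
  have k2 : g 0 = 0 := (mul_eq_zero.1 k1).resolve_left (mul_ne_zero q_ne_t q2_ne_t)
  have k3 : (t ^ 2 - q) * g 1 = 0 := by
    rw [k2] at f1 f2
    linear_combination (t + t ^ 2) * f1 - f2
  have k4 : g 1 = 0 := (mul_eq_zero.1 k3).resolve_left t2_ne_q
  have k5 : g 2 = 0 := by
    rw [k2, k4] at f1
    linear_combination f1
  intro i
  fin_cases i
  · exact k2
  · exact k4
  · exact k5

theorem indep2 : LinearIndependent K ![S2 q, S2 t] := by
  rw [Fintype.linearIndependent_iff]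
  intro g hg
  rw [Fin.sum_univ_two] at hg
  simp only [Matrix.cons_val_zero, Matrix.cons_val_one] at hg
  unfold S2 at hg
  rw [F2_smul, F2_smul, F2_add] at hg
  have h0 : (0 : Lam) = F2 0 0 := by unfold F2; simp
  rw [h0] at hg
  obtain ⟨e1, e2⟩ := F2_inj hg
  have f1 : g 0 + g 1 = 0 := by linear_combination e1 + e2
  have f2 : g 0 * q + g 1 * t = 0 := by linear_combination e1 - e2
  have k1 : (q - t) * g 0 = 0 := by linear_combination f2 - t * f1
  have k2 : g 0 = 0 := (mul_eq_zero.1 k1).resolve_left q_ne_t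
  have k3 : g 1 = 0 := by
    rw [k2] at f1
    linear_combination f1
  intro i
  fin_cases i
  · exact k2
  · exact k3

/-- The operators exist for `n = 3`. -/
theorem exists_delta3 (f : Lam) : ∃ D : Lam →ₗ[K] Lam, IsDelta 3 f D := by
  obtain ⟨D, hD⟩ := exists_op _ indep3 ![evB [3] f, evB [2, 1] f, evB [1, 1, 1] f]
  refine ⟨D, fun l H hl hs hH => ?_⟩
  rcases par3 hl hs with rfl | rfl | rfl
  · rw [(isMac_3 H).1 hH]; exact hD 0
  · rw [(isMac_21 H).1 hH]; exact hD 1
  · rw [(isMac_111 H).1 hH]; exact hD 2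

/-- The operators exist for `n = 2`. -/
theorem exists_delta2 (f : Lam) : ∃ D : Lam →ₗ[K] Lam, IsDelta 2 f D := by
  obtain ⟨D, hD⟩ := exists_op _ indep2 ![evB [2] f, evB [1, 1] f]
  refine ⟨D, fun l H hl hs hH => ?_⟩
  rcases par2 hl hs with rfl | rfl
  · rw [(isMac_2 H).1 hH]; exact hD 0
  · rw [(isMac_11 H).1 hH]; exact hD 1

/-- The operators exist for `n = 1`. -/
theorem exists_delta1 (f : Lam) : ∃ D : Lam →ₗ[K] Lam, IsDelta 1 f D := by
  refine ⟨(evB [1] f) • LinearMap.id, fun l H hl hs hH => ?_⟩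
  rw [par1 hl hs]
  rfl

end DeltaSchur
end
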