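import Pool.Agent.Lib.MP_e83f70_co.Defs

/-!
# MP_e83f70_co: the positivity statement behind the case `n = 3`
-/

set_option autoImplicit false

namespace DeltaSchur

open MvPolynomial

theorem q_mem : q ∈ Nqt := ⟨X 0, by simp [q]⟩

theorem t_mem : t ∈ Nqt := ⟨X 1, by simp [t]⟩

/-- Nonzero elements of `K` from values of polynomials. -/
theorem ne_of_eval (P : MvPolynomial (Fin 2) ℚ) (a : Fin 2 → ℚ) (hP : eval a P ≠ 0) :
    algebraMap (MvPolynomial (Fin 2) ℚ) K P ≠ 0 := by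
  intro hc
  rw [map_eq_zero_iff _ (IsFractionRing.injective (MvPolynomial (Fin 2) ℚ) K)] at hc
  rw [hc, map_zero] at hP
  exact hP rfl

theorem q_ne_t : q - t ≠ 0 := by
  have := ne_of_eval (X 0 - X 1) ![2, 3] (by simp; norm_num)
  simpa [q, t] using this

theorem q2_ne_t : q ^ 2 - t ≠ 0 := by
  have := ne_of_eval (X 0 ^ 2 - X 1) ![2, 3] (by simp; norm_num)
  simpa [q, t] using this

theorem t2_ne_q : t ^ 2 - q ≠ 0 := by
  have := ne_of_eval (X 1 ^ 2 - X 0) ![2, 3] (by simp; norm_num)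
  simpa [q, t] using this

theorem hh_comm {R : Type*} [CommRing R] (x y : R) (m : ℕ) : hh x y m = hh y x m := by
  unfold hh
  rw [← Finset.sum_range_reflect]
  refine Finset.sum_congr rfl fun r hr => ?_
  rw [Finset.mem_range] at hr
  have e1 : m + 1 - 1 - r = m - r := by omega
  have e2 : m - (m - r) = r := by omega
  rw [e1, e2, mul_comm]

/-- The exponent. -/
def ex (i j r s : ℕ) : ℕ := (i - r) + j + 2 * (j + r - 1 - s)

/-- The index set. -/
def Ix (i j : ℕ) : Finset (Σ _ : ℕ, ℕ) := (Finset.range (i + 1)).sigma fun r => Finset.range (j + r)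

theorem mem_Ix {i j : ℕ} {a : Σ _ : ℕ, ℕ} : a ∈ Ix i j ↔ a.1 ≤ i ∧ a.2 < j + a.1 := by
  unfold Ix
  rw [Finset.mem_sigma, Finset.mem_range, Finset.mem_range, Nat.lt_succ_iff]

/-- The polynomial `Q`. -/
def Qs {R : Type*} [CommRing R] (i j : ℕ) (x y : R) : R :=
  ∑ a ∈ Ix i j, x ^ ex i j a.1 a.2 * y ^ a.2

theorem Qs_mul {R : Type*} [CommRing R] (i j : ℕ) (x y : R) :
    (x ^ 2 - y) * Qs i j x y = x ^ (3 * j) * hh x (x ^ 2) i - (x * y) ^ j * hh x y i := by
  unfold Qs Ix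
  rw [Finset.sum_sigma, Finset.mul_sum]
  unfold hh
  rw [Finset.mul_sum, Finset.mul_sum, ← Finset.sum_sub_distrib]
  refine Finset.sum_congr rfl fun r hr => ?_
  rw [Finset.mem_range] at hr
  have h1 := geom_sum₂_mul y (x ^ 2) (j + r)
  have h2 : ∑ s ∈ Finset.range (j + r), x ^ ex i j r s * y ^ s =
      x ^ (i - r + j) * ∑ s ∈ Finset.range (j + r), y ^ s * (x ^ 2) ^ (j + r - 1 - s) := by
    rw [Finset.mul_sum]
    refine Finset.sum_congr rfl fun s _ => ?_
    unfold ex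
    rw [pow_add x (i - r + j), pow_mul]
    ring
  rw [h2]
  have h3 : (x ^ 2 - y) * (x ^ (i - r + j) *
      ∑ s ∈ Finset.range (j + r), y ^ s * (x ^ 2) ^ (j + r - 1 - s)) =
      - (x ^ (i - r + j) * ((∑ s ∈ Finset.range (j + r), y ^ s * (x ^ 2) ^ (j + r - 1 - s)) *
        (y - x ^ 2))) := by ring
  rw [h3, h1]
  have e1 : (x ^ 2) ^ (j + r) = x ^ (2 * j) * (x ^ 2) ^ r := by
    rw [pow_add, pow_mul]
  have e2 : x ^ (i - r + j) = x ^ (i - r) * x ^ j := pow_add _ _ _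
  have e3 : x ^ (3 * j) = x ^ j * x ^ (2 * j) := by rw [← pow_add]; congr 1; ring
  rw [e1, e2, e3, pow_add y, mul_pow]
  ring

/-- The part of the index set with nonzero contribution. -/
def Ip (i j : ℕ) : Finset (Σ _ : ℕ, ℕ) := (Ix i j).filter fun a => 3 * a.2 + 2 < 3 * j + 2 * a.1

/-- The two-row Schur polynomial `s_{(A - 1, s)}(x, y)`. -/
def ss {R : Type*} [CommRing R] (A s : ℕ) (x y : R) : R := (x * y) ^ s * hh x y (A - 1 - s)

theorem ss_mul {R : Type*} [CommRing R] {A s : ℕ} (hA : s < A) (x y : R) :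
    (x - y) * ss A s x y = x ^ A * y ^ s - y ^ A * x ^ s := by
  unfold ss
  have h1 := geom_sum₂_mul x y (A - s)
  have h2 : hh x y (A - 1 - s) = ∑ i ∈ Finset.range (A - s), x ^ i * y ^ (A - s - 1 - i) := by
    rw [hh_comm]
    unfold hh
    have e1 : A - 1 - s + 1 = A - s := by omega
    rw [e1]
    refine Finset.sum_congr rfl fun r _ => ?_
    have e2 : A - 1 - s - r = A - s - 1 - r := by omega
    rw [e2, mul_comm]
  rw [h2]
  have h3 : (x - y) * ((x * y) ^ s * ∑ i ∈ Finset.range (A - s), x ^ i * y ^ (A - s - 1 - i)) =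
      (x * y) ^ s * ((∑ i ∈ Finset.range (A - s), x ^ i * y ^ (A - s - 1 - i)) * (x - y)) := by
    ring
  rw [h3, h1]
  have e1 : x ^ A = x ^ s * x ^ (A - s) := by rw [← pow_add]; congr 1; omega
  have e2 : y ^ A = y ^ s * y ^ (A - s) := by rw [← pow_add]; congr 1; omega
  rw [e1, e2, mul_pow]
  ring

theorem Qs_sub {R : Type*} [CommRing R] (i j : ℕ) (x y : R) :
    Qs i j x y - Qs i j y x = (x - y) * ∑ a ∈ Ip i j, ss (ex i j a.1 a.2) a.2 x y := by
  unfold Qs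
  rw [← Finset.sum_sub_distrib]
  rw [← Finset.sum_filter_add_sum_filter_not (Ix i j) fun a => 3 * a.2 + 2 < 3 * j + 2 * a.1]
  have h0 : ∑ a ∈ (Ix i j).filter (fun a => ¬ 3 * a.2 + 2 < 3 * j + 2 * a.1),
      (x ^ ex i j a.1 a.2 * y ^ a.2 - y ^ ex i j a.1 a.2 * x ^ a.2) = 0 := by
    refine Finset.sum_involution
      (fun a _ => (⟨i + 3 * j + 2 * a.1 - 2 - 3 * a.2, ex i j a.1 a.2⟩ : Σ _ : ℕ, ℕ)) ?_ ?_ ?_ ?_
    · rintro ⟨r, s⟩ ha
      rw [Finset.mem_filter, mem_Ix] at ha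
      obtain ⟨⟨h1, h2⟩, h3⟩ := ha
      simp only at h1 h2 h3
      have e1 : ex i j (i + 3 * j + 2 * r - 2 - 3 * s) (ex i j r s) = s := by
        unfold ex; omega
      simp only [e1]
      ring
    · rintro ⟨r, s⟩ ha hne heq
      rw [Finset.mem_filter, mem_Ix] at ha
      simp only [Sigma.mk.injEq, heq_eq_eq] at heq
      apply hne
      simp only
      rw [heq.2]
      ring
    · rintro ⟨r, s⟩ ha
      rw [Finset.mem_filter, mem_Ix] at ha ⊢
      obtain ⟨⟨h1, h2⟩, h3⟩ := ha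
      simp only at h1 h2 h3 ⊢
      unfold ex
      omega
    · rintro ⟨r, s⟩ ha
      rw [Finset.mem_filter, mem_Ix] at ha
      obtain ⟨⟨h1, h2⟩, h3⟩ := ha
      simp only at h1 h2 h3
      simp only [Sigma.mk.injEq, heq_eq_eq]
      unfold ex
      omega
  rw [h0, add_zero, Finset.mul_sum]
  unfold Ip
  refine Finset.sum_congr rfl fun a ha => ?_
  rw [Finset.mem_filter, mem_Ix] at ha
  rw [ss_mul]
  unfold ex
  omega

/-- The value `C(i; j)`. -/
noncomputable def CC (i j : ℕ) : K :=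
  q ^ (3 * j) * hh q (q ^ 2) i / ((q ^ 2 - t) * (q - t)) +
    t ^ (3 * j) * hh t (t ^ 2) i / ((t ^ 2 - q) * (t - q)) +
    (q * t) ^ j * hh q t i * (1 + q + t) / ((q - t ^ 2) * (t - q ^ 2))

theorem CC_eq (i j : ℕ) : CC i j = ∑ a ∈ Ip i j, ss (ex i j a.1 a.2) a.2 q t := by
  have h1 := Qs_mul i j q t
  have h2 := Qs_mul i j t q
  have h3 := Qs_sub i j q t
  rw [hh_comm t q, mul_comm t q] at h2
  have n1 := q_ne_t
  have n2 := q2_ne_t
  have n3 := t2_ne_q
  have n4 : t - q ≠ 0 := by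
    intro h; apply n1; rw [← neg_sub, h, neg_zero]
  have n5 : q - t ^ 2 ≠ 0 := by
    intro h; apply n3; rw [← neg_sub, h, neg_zero]
  have n6 : t - q ^ 2 ≠ 0 := by
    intro h; apply n2; rw [← neg_sub, h, neg_zero]
  have h4 : CC i j = (Qs i j q t - Qs i j t q) / (q - t) := by
    unfold CC
    have e1 : q ^ (3 * j) * hh q (q ^ 2) i =
        (q ^ 2 - t) * Qs i j q t + (q * t) ^ j * hh q t i := by rw [h1]; ring
    have e2 : t ^ (3 * j) * hh t (t ^ 2) i =
        (t ^ 2 - q) * Qs i j t q + (q * t) ^ j * hh q t i := by rw [h2]; ring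
    rw [e1, e2]
    generalize Qs i j q t = Q1
    generalize Qs i j t q = Q2
    generalize (q * t) ^ j * hh q t i = M
    field_simp
    ring
  rw [h4, h3]
  field_simp

theorem hh_mem {x y : K} (hx : x ∈ Nqt) (hy : y ∈ Nqt) (m : ℕ) : hh x y m ∈ Nqt := by
  unfold hh
  exact Subsemiring.sum_mem _ fun r _ => mul_mem (pow_mem hx _) (pow_mem hy _)

theorem gen_mem (a b : ℕ) : (q * t) ^ b * hh q t a ∈ Sqt :=
  AddSubmonoid.subset_closure ⟨a, b, rfl⟩

theorem Sqt_le {x : K} (hx : x ∈ Sqt) : x ∈ Nqt := by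
  have h1 : Sqt ≤ Nqt.toAddSubmonoid := by
    refine AddSubmonoid.closure_le.2 ?_
    rintro y ⟨a, b, rfl⟩
    show (q * t) ^ b * hh q t a ∈ Nqt
    exact mul_mem (pow_mem (mul_mem q_mem t_mem) _) (hh_mem q_mem t_mem _)
  exact h1 hx

theorem CC_mem (i j : ℕ) : CC i j ∈ Sqt := by
  rw [CC_eq]
  exact AddSubmonoid.sum_mem _ fun a _ => gen_mem _ _

end DeltaSchur
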